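import Mathlib

/-!
# Semiconvex and semiconcave functions: definitions and differentiability

Helper file for `MP_d2274e_an`.
-/

open Set Metric Filter Topology

namespace Pool.Agent.V1173.Semi

variable {E : Type*} [NormedAddCommGroup E] [NormedSpace ℝ E]

/-- The class `𝓜`: non-negative, non-decreasing on `[0,∞)`, tending to `0` at `0+`. -/
def IsModulus (ω : ℝ → ℝ) : Prop :=
  (∀ t, 0 ≤ t → 0 ≤ ω t) ∧ MonotoneOn ω (Ici 0) ∧ Tendsto ω (𝓝[>] 0) (𝓝 0)

/-- `f` is `ω`-semiconvex on `G`. -/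
def Semiconvex (G : Set E) (ω : ℝ → ℝ) (f : E → ℝ) : Prop :=
  ContinuousOn f G ∧ ∀ x ∈ G, ∀ y ∈ G, ∀ l ∈ Icc (0 : ℝ) 1,
    f (l • x + (1 - l) • y) ≤ l * f x + (1 - l) * f y + l * (1 - l) * ‖x - y‖ * ω ‖x - y‖

/-- `f` is `ω`-semiconcave on `G`. -/
def Semiconcave (G : Set E) (ω : ℝ → ℝ) (f : E → ℝ) : Prop :=
  Semiconvex G ω fun x => -f x

/-- `f ∈ C^{1,ω}(G)`. -/
def MemC1 (G : Set E) (ω : ℝ → ℝ) (f : E → ℝ) : Prop :=
  ∃ K > 0, (∀ x ∈ G, DifferentiableAt ℝ f x) ∧
    ∀ x ∈ G, ∀ y ∈ G, ‖fderiv ℝ f x - fderiv ℝ f y‖ ≤ K * ω ‖x - y‖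

/-- `G` contains no translate of a convex cone with nonempty interior. -/
def ConeFree (G : Set E) : Prop :=
  ∀ (a : E) (C : Set E), Convex ℝ C → (∀ x ∈ C, ∀ l : ℝ, 0 < l → l • x ∈ C) →
    (interior C).Nonempty → ¬ ∀ c ∈ C, a + c ∈ G

/-- two-sided second difference bound -/
theorem second_diff {G : Set E} {ω : ℝ → ℝ} {f : E → ℝ} (h1 : Semiconvex G ω f)
    (h2 : Semiconcave G ω f) {x y : E} (hx : x ∈ G) (hy : y ∈ G) {l : ℝ} (hl : l ∈ Icc (0 : ℝ) 1) :
    |l * f x + (1 - l) * f y - f (l • x + (1 - l) • y)| ≤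
      l * (1 - l) * ‖x - y‖ * ω ‖x - y‖ := by
  have h3 := h1.2 x hx y hy l hl
  have h4 := h2.2 x hx y hy l hl
  rw [abs_le]
  constructor <;> linarith

/-- one-dimensional slopes are Cauchy -/
theorem slope_diff {G : Set E} (hG : Convex ℝ G) {ω : ℝ → ℝ} {f : E → ℝ} (h1 : Semiconvex G ω f)
    (h2 : Semiconcave G ω f) {x v : E} (hx : x ∈ G) (hxv : x + v ∈ G) {s : ℝ} (hs0 : 0 < s)
    (hs1 : s ≤ 1) :
    |(f (x + s • v) - f x) / s - (f (x + v) - f x)| ≤ ‖v‖ * ω ‖v‖ * (1 - s) := by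
  have h3 := second_diff h1 h2 hxv hx (l := s) ⟨hs0.le, hs1⟩
  have h4 : s • (x + v) + (1 - s) • x = x + s • v := by
    rw [smul_add, sub_smul, one_smul]
    abel
  have h5 : x + v - x = v := by abel
  rw [h4, h5] at h3
  have h6 : (f (x + s • v) - f x) / s - (f (x + v) - f x) =
      -(s * f (x + v) + (1 - s) * f x - f (x + s • v)) / s := by
    field_simp
    ring
  rw [h6, abs_div, abs_neg, abs_of_pos hs0, div_le_iff₀ hs0]
  calc _ ≤ _ := h3
    _ = _ := by ring

/-- existence of the derivative, with the Taylor estimate -/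
theorem exists_deriv [FiniteDimensional ℝ E] {G : Set E} (hGo : IsOpen G) (hG : Convex ℝ G)
    {ω : ℝ → ℝ} (hω : IsModulus ω) {f : E → ℝ} (h1 : Semiconvex G ω f) (h2 : Semiconcave G ω f)
    {x : E} (hx : x ∈ G) :
    ∃ L : E →L[ℝ] ℝ, HasFDerivAt f L x ∧
      ∀ v, x + v ∈ G → |f (x + v) - f x - L v| ≤ ‖v‖ * ω ‖v‖ := by
  obtain ⟨hω0, hωm, hωt⟩ := hω
  obtain ⟨ρ, hρ, hball⟩ := Metric.isOpen_iff.mp hGo x hx
  -- points near x in direction v
  have hnear : ∀ v : E, ∀ᶠ s : ℝ in 𝓝[>] 0, x + s • v ∈ G := by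
    intro v
    have hc : Continuous fun s : ℝ => x + s • v := by fun_prop
    have h3 : ∀ᶠ s : ℝ in 𝓝 0, x + s • v ∈ G := by
      apply hc.continuousAt.eventually_mem
      simpa using hGo.mem_nhds hx
    exact h3.filter_mono nhdsWithin_le_nhds
  set q : E → ℝ → ℝ := fun v s => (f (x + s • v) - f x) / s with hq
  -- comparison of slopes
  have hcmp : ∀ v : E, ∀ r s : ℝ, 0 < s → s ≤ r → x + r • v ∈ G →
      |q v s - q v r| ≤ ‖v‖ * ω (r * ‖v‖) := by
    intro v r s hs hsr hr
    have hr0 : 0 < r := hs.trans_le hsr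
    have h3 := slope_diff hG h1 h2 (x := x) (v := r • v) hx hr (s := s / r) (by positivity)
      ((div_le_one hr0).mpr hsr)
    have h4 : (s / r) • r • v = s • v := by
      rw [smul_smul]
      congr 1
      field_simp
    rw [h4] at h3
    have h5 : q v s - q v r = ((f (x + s • v) - f x) / (s / r) - (f (x + r • v) - f x)) / r := by
      rw [hq]
      simp only
      field_simp
    rw [h5, abs_div, abs_of_pos hr0, div_le_iff₀ hr0]
    rw [norm_smul, Real.norm_eq_abs, abs_of_pos hr0] at h3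
    refine h3.trans ?_
    have h6 : 0 ≤ ω (r * ‖v‖) := hω0 _ (by positivity)
    have h7 : 1 - s / r ≤ 1 := by
      have : 0 ≤ s / r := by positivity
      linarith
    calc r * ‖v‖ * ω (r * ‖v‖) * (1 - s / r) ≤ r * ‖v‖ * ω (r * ‖v‖) * 1 := by gcongr
      _ = _ := by ring
  -- limits of slopes
  have hωv : ∀ v : E, Tendsto (fun r : ℝ => ‖v‖ * ω (r * ‖v‖)) (𝓝[>] 0) (𝓝 0) := by
    intro v
    rcases (norm_nonneg v).eq_or_lt with h0 | h0
    · rw [← h0]
      simp
    · have h3 : Tendsto (fun r : ℝ => r * ‖v‖) (𝓝[>] 0) (𝓝[>] 0) := by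
        apply tendsto_nhdsWithin_of_tendsto_nhds_of_eventually_within
        · have : Tendsto (fun r : ℝ => r * ‖v‖) (𝓝 0) (𝓝 (0 * ‖v‖)) :=
            (continuous_id.mul continuous_const).tendsto 0
          rw [zero_mul] at this
          exact this.mono_left nhdsWithin_le_nhds
        · filter_upwards [self_mem_nhdsWithin] with r hr
          exact mul_pos hr h0
      have := (hωt.comp h3).const_mul ‖v‖
      simpa using this
  have hlim : ∀ v : E, ∃ d : ℝ, Tendsto (q v) (𝓝[>] 0) (𝓝 d) := by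
    intro v
    apply cauchy_map_iff_exists_tendsto.mp
    rw [Metric.cauchy_iff]
    refine ⟨inferInstance, fun ε hε => ?_⟩
    have h3 := ((hωv v).eventually (gt_mem_nhds (half_pos hε))).and (hnear v)
    obtain ⟨r, ⟨h4, h5⟩, hr0⟩ := (h3.and self_mem_nhdsWithin).exists
    refine ⟨q v '' Ioc 0 r, ?_, ?_⟩
    · exact image_mem_map (Ioc_mem_nhdsGT hr0)
    · rintro _ ⟨s, hs, rfl⟩ _ ⟨s', hs', rfl⟩
      have h6 := hcmp v r s hs.1 hs.2 h5
      have h7 := hcmp v r s' hs'.1 hs'.2 h5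
      rw [Real.dist_eq]
      have h8 : |q v s - q v s'| ≤ |q v s - q v r| + |q v s' - q v r| := by
        have : q v s - q v s' = (q v s - q v r) - (q v s' - q v r) := by ring
        rw [this]
        exact abs_sub _ _
      linarith
  choose d hd using hlim
  -- Taylor estimate
  have htay : ∀ v, x + v ∈ G → |f (x + v) - f x - d v| ≤ ‖v‖ * ω ‖v‖ := by
    intro v hv
    have h3 : ∀ᶠ s in 𝓝[>] (0 : ℝ), |q v s - (f (x + v) - f x)| ≤ ‖v‖ * ω ‖v‖ := by
      filter_upwards [Ioc_mem_nhdsGT one_pos] with s hs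
      have h4 := hcmp v 1 s hs.1 hs.2 (by rwa [one_smul])
      rw [hq] at h4 ⊢
      simp only [one_smul, div_one, one_mul] at h4
      exact h4
    have h4 : Tendsto (fun s => |q v s - (f (x + v) - f x)|) (𝓝[>] 0)
        (𝓝 |d v - (f (x + v) - f x)|) := ((hd v).sub_const _).abs
    have h5 := le_of_tendsto h4 h3
    rw [abs_sub_comm] at h5
    exact h5
  -- homogeneity
  have hscale : ∀ (v : E) (c : ℝ), 0 < c → d (c • v) = c * d v := by
    intro v c hc
    have h3 : Tendsto (fun s : ℝ => s * c) (𝓝[>] 0) (𝓝[>] 0) := by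
      apply tendsto_nhdsWithin_of_tendsto_nhds_of_eventually_within
      · have : Tendsto (fun r : ℝ => r * c) (𝓝 0) (𝓝 (0 * c)) :=
          (continuous_id.mul continuous_const).tendsto 0
        rw [zero_mul] at this
        exact this.mono_left nhdsWithin_le_nhds
      · filter_upwards [self_mem_nhdsWithin] with r hr
        exact mul_pos hr hc
    have h4 := ((hd v).comp h3).const_mul c
    have h5 : Tendsto (q (c • v)) (𝓝[>] 0) (𝓝 (c * d v)) := by
      refine h4.congr' ?_
      filter_upwards [self_mem_nhdsWithin] with s hs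
      have hs' : (s : ℝ) ≠ 0 := (ne_of_gt hs)
      simp only [hq, Function.comp_apply, smul_smul]
      field_simp
    exact tendsto_nhds_unique (hd (c • v)) h5
  have hzero : d 0 = 0 := by
    have h3 : Tendsto (q 0) (𝓝[>] 0) (𝓝 0) := by
      have : q 0 = fun _ => 0 := by
        funext s
        simp [hq]
      rw [this]
      exact tendsto_const_nhds
    exact tendsto_nhds_unique (hd 0) h3
  have hadd : ∀ v w : E, d (v + w) = d v + d w := by
    intro v w
    have h3 : Tendsto (fun s : ℝ => s * 2) (𝓝[>] 0) (𝓝[>] 0) := by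
      apply tendsto_nhdsWithin_of_tendsto_nhds_of_eventually_within
      · have : Tendsto (fun r : ℝ => r * 2) (𝓝 0) (𝓝 (0 * 2)) :=
          (continuous_id.mul continuous_const).tendsto 0
        rw [zero_mul] at this
        exact this.mono_left nhdsWithin_le_nhds
      · filter_upwards [self_mem_nhdsWithin] with r hr
        exact mul_pos hr (by norm_num : (0 : ℝ) < 2)
    have hA := (hd v).comp h3
    have hB := (hd w).comp h3
    have hC := (hA.add hB).sub (hd (v + w))
    have hD : Tendsto (fun s => q v (s * 2) + q w (s * 2) - q (v + w) s) (𝓝[>] 0) (𝓝 0) := by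
      have hE := (hωv ((2 : ℝ) • v - (2 : ℝ) • w))
      refine squeeze_zero_norm' ?_ hE
      filter_upwards [self_mem_nhdsWithin, (h3.eventually (hnear v)), (h3.eventually (hnear w))]
        with s hs hv hw
      have hs' : 0 < s := hs
      have h4 := second_diff h1 h2 hv hw (l := 1 / 2) ⟨by norm_num, by norm_num⟩
      have h5 : (1 / 2 : ℝ) • (x + (s * 2) • v) + (1 - 1 / 2 : ℝ) • (x + (s * 2) • w) =
          x + s • (v + w) := by
        module
      have h6 : x + (s * 2) • v - (x + (s * 2) • w) = s • ((2 : ℝ) • v - (2 : ℝ) • w) := by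
        module
      rw [h5, h6, norm_smul, Real.norm_eq_abs, abs_of_pos hs'] at h4
      have h7 : q v (s * 2) + q w (s * 2) - q (v + w) s =
          (1 / 2 * f (x + (s * 2) • v) + (1 - 1 / 2) * f (x + (s * 2) • w) -
            f (x + s • (v + w))) / s := by
        simp only [hq]
        field_simp
        ring
      rw [Real.norm_eq_abs, h7, abs_div, abs_of_pos hs', div_le_iff₀ hs']
      refine h4.trans ?_
      have h8 : 0 ≤ ω (s * ‖(2 : ℝ) • v - (2 : ℝ) • w‖) := hω0 _ (by positivity)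
      nlinarith [mul_nonneg (mul_nonneg hs'.le (norm_nonneg ((2 : ℝ) • v - (2 : ℝ) • w))) h8]
    have h9 := tendsto_nhds_unique hC hD
    linarith
  have hneg : ∀ v : E, d (-v) = -d v := by
    intro v
    have := hadd v (-v)
    rw [add_neg_cancel, hzero] at this
    linarith
  have hsmul : ∀ (c : ℝ) (v : E), d (c • v) = c * d v := by
    intro c v
    rcases lt_trichotomy c 0 with hc | hc | hc
    · have h3 := hscale v (-c) (by linarith)
      rw [neg_smul, hneg] at h3
      linarith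
    · rw [hc, zero_smul, zero_mul, hzero]
    · exact hscale v c hc
  let Ll : E →ₗ[ℝ] ℝ := { toFun := d, map_add' := hadd, map_smul' := fun c v => by simpa using hsmul c v }
  refine ⟨LinearMap.toContinuousLinearMap Ll, ?_, htay⟩
  rw [hasFDerivAt_iff_isLittleO_nhds_zero, Asymptotics.isLittleO_iff]
  intro ε hε
  have h3 : ∀ᶠ r : ℝ in 𝓝[>] 0, ω r < ε := hωt.eventually (gt_mem_nhds hε)
  obtain ⟨r₀, hr₀, hr₀'⟩ := (h3.and self_mem_nhdsWithin).exists
  filter_upwards [Metric.ball_mem_nhds (0 : E) (lt_min hρ hr₀')] with v hv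
  rw [mem_ball_zero_iff, lt_min_iff] at hv
  have h4 : x + v ∈ G := by
    apply hball
    rw [mem_ball, dist_eq_norm]
    simpa using hv.1
  have h5 := htay v h4
  rw [Real.norm_eq_abs]
  have h6 : ω ‖v‖ ≤ ω r₀ := hωm (norm_nonneg _) (le_of_lt hr₀') hv.2.le
  calc |f (x + v) - f x - (LinearMap.toContinuousLinearMap Ll) v| = |f (x + v) - f x - d v| := rfl
    _ ≤ ‖v‖ * ω ‖v‖ := h5
    _ ≤ ‖v‖ * ε := by
      have := norm_nonneg v
      gcongr
      linarith
    _ = ε * ‖v‖ := by ring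

end Pool.Agent.V1173.Semi
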