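import Pool.Agent.V1173.Semi.Defs

/-!
# The parabola and a modulus which varies slowly: every function which is semiconvex and
semiconcave is of class `C^{1,ω}`

Helper file for `MP_d2274e_an`.
-/

open Set Metric Filter Topology

namespace Pool.Agent.V1173.Semi

/-- the plane -/
abbrev E2 := EuclideanSpace ℝ (Fin 2)

/-- the region above the parabola -/
def Par : Set E2 := {x | (x 0) ^ 2 < x 1}

/-- the modulus -/
noncomputable def om (t : ℝ) : ℝ := t / (1 + Real.log (1 + t))

theorem one_add_log_pos {t : ℝ} (ht : 0 ≤ t) : 1 ≤ 1 + Real.log (1 + t) := by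
  have := Real.log_nonneg (show (1 : ℝ) ≤ 1 + t by linarith)
  linarith

theorem om_nonneg {t : ℝ} (ht : 0 ≤ t) : 0 ≤ om t :=
  div_nonneg ht (by have := one_add_log_pos ht; linarith)

theorem om_mono {s t : ℝ} (hs : 0 ≤ s) (hst : s ≤ t) : om s ≤ om t := by
  have h1 := one_add_log_pos hs
  have h2 := one_add_log_pos (hs.trans hst)
  rw [om, om, div_le_div_iff₀ (by linarith) (by linarith)]
  have h3 : Real.log (1 + t) - Real.log (1 + s) ≤ (t - s) / (1 + s) := by
    have ht : 0 ≤ t := hs.trans hst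
    rw [← Real.log_div (by positivity) (by positivity)]
    have h4 : (0 : ℝ) < (1 + t) / (1 + s) := by positivity
    have h5 := Real.log_le_sub_one_of_pos h4
    have h6 : (1 + t) / (1 + s) - 1 = (t - s) / (1 + s) := by
      field_simp
      ring
    linarith
  have h7 : s * ((t - s) / (1 + s)) ≤ t - s := by
    rw [mul_div_assoc', div_le_iff₀ (by linarith)]
    nlinarith
  nlinarith [mul_le_mul_of_nonneg_left h3 hs, mul_nonneg (sub_nonneg.mpr hst) (sub_nonneg.mpr h1)]

theorem om_two_mul {t : ℝ} (ht : 0 ≤ t) : om (2 * t) ≤ 2 * om t := by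
  have h1 := one_add_log_pos ht
  have h2 : Real.log (1 + t) ≤ Real.log (1 + 2 * t) := Real.log_le_log (by linarith) (by linarith)
  rw [om, om, mul_div_assoc]
  gcongr

theorem om_half {s : ℝ} (hs : 0 ≤ s) : om (s / 2) ≤ (17 / 20) * om s := by
  have h1 := one_add_log_pos hs
  have h2 := one_add_log_pos (show 0 ≤ s / 2 by linarith)
  have h3 : Real.log (1 + s) ≤ Real.log 2 + Real.log (1 + s / 2) := by
    rw [← Real.log_mul (by norm_num) (by linarith)]
    exact Real.log_le_log (by linarith) (by linarith)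
  have h4 := Real.log_two_lt_d9
  rw [om, om, ← mul_div_assoc, div_le_div_iff₀ (by linarith) (by linarith)]
  nlinarith [mul_nonneg hs (sub_nonneg.mpr h2)]

theorem om_cont_zero : Tendsto om (𝓝[>] 0) (𝓝 0) := by
  have h : ContinuousAt om 0 := by
    unfold om
    apply ContinuousAt.div continuousAt_id
    · apply continuousAt_const.add
      apply ContinuousAt.log (by fun_prop)
      norm_num
    · simp
  have h2 : om 0 = 0 := by simp [om]
  have := h.tendsto
  rw [h2] at this
  exact this.mono_left nhdsWithin_le_nhds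

theorem om_isModulus : IsModulus om :=
  ⟨fun _ ht => om_nonneg ht, fun _ hs _ _ hst => om_mono hs hst, om_cont_zero⟩

theorem om_hasDeriv {t : ℝ} (ht : 0 ≤ t) :
    HasDerivAt om ((Real.log (1 + t) + 1 / (1 + t)) / (1 + Real.log (1 + t)) ^ 2) t := by
  have h1 := one_add_log_pos ht
  have h2 : HasDerivAt (fun s : ℝ => 1 + Real.log (1 + s)) (1 / (1 + t)) t := by
    have h3 : HasDerivAt (fun s : ℝ => 1 + s) 1 t := by
      simpa using (hasDerivAt_id t).const_add 1
    have := (h3.log (by linarith)).const_add 1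
    simpa using this
  have h4 := (hasDerivAt_id t).div h2 (by linarith)
  have h5 : (1 * (1 + Real.log (1 + t)) - id t * (1 / (1 + t))) / (1 + Real.log (1 + t)) ^ 2 =
      (Real.log (1 + t) + 1 / (1 + t)) / (1 + Real.log (1 + t)) ^ 2 := by
    congr 1
    have : (1 : ℝ) + t ≠ 0 := by linarith
    simp only [id]
    field_simp
    ring
  rw [← h5]
  exact h4

theorem om_concave : ConcaveOn ℝ (Ici 0) om := by
  have hc : ContinuousOn om (Ici 0) := fun t ht => (om_hasDeriv ht).continuousAt.continuousWithinAt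
  refine AntitoneOn.concaveOn_of_deriv (convex_Ici 0) hc ?_ ?_
  · intro t ht
    rw [interior_Ici] at ht
    exact (om_hasDeriv (le_of_lt ht)).differentiableAt.differentiableWithinAt
  · rw [interior_Ici]
    set g : ℝ → ℝ := fun t => (Real.log (1 + t) + 1 / (1 + t)) / (1 + Real.log (1 + t)) ^ 2 with hg
    have hd : ∀ t ∈ Ioi (0 : ℝ), HasDerivAt g
        (((1 / (1 + t) - 1 / (1 + t) ^ 2) * (1 + Real.log (1 + t)) ^ 2 -
          (Real.log (1 + t) + 1 / (1 + t)) * (2 * (1 + Real.log (1 + t)) * (1 / (1 + t)))) /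
          ((1 + Real.log (1 + t)) ^ 2) ^ 2) t := by
      intro t ht
      have ht' : 0 < t := ht
      have h1 := one_add_log_pos ht'.le
      have h3 : HasDerivAt (fun s : ℝ => 1 + s) 1 t := by
        simpa using (hasDerivAt_id t).const_add 1
      have h2 : HasDerivAt (fun s : ℝ => Real.log (1 + s)) (1 / (1 + t)) t := by
        have := (h3.log (by linarith))
        simpa using this
      have h4 : HasDerivAt (fun s : ℝ => 1 / (1 + s)) (-(1 / (1 + t) ^ 2)) t := by
        have := h3.inv (by linarith)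
        simp only [one_div]
        refine this.congr_deriv ?_
        rw [neg_div, one_div]
      have h5 : HasDerivAt (fun s : ℝ => Real.log (1 + s) + 1 / (1 + s))
          (1 / (1 + t) - 1 / (1 + t) ^ 2) t := by
        refine (h2.add h4).congr_deriv ?_
        ring
      have h6 : HasDerivAt (fun s : ℝ => (1 + Real.log (1 + s)) ^ 2)
          (2 * (1 + Real.log (1 + t)) * (1 / (1 + t))) t := by
        refine ((h2.const_add 1).pow 2).congr_deriv ?_
        ring
      exact h5.div h6 (by positivity)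
    have hanti : AntitoneOn g (Ioi 0) := by
      apply antitoneOn_of_deriv_nonpos (convex_Ioi 0)
      · exact fun t ht => (hd t ht).continuousAt.continuousWithinAt
      · rw [interior_Ioi]
        exact fun t ht => (hd t ht).differentiableAt.differentiableWithinAt
      · rw [interior_Ioi]
        intro t ht
        rw [(hd t ht).deriv]
        have ht' : 0 < t := ht
        have h1 := one_add_log_pos ht'.le
        apply div_nonpos_of_nonpos_of_nonneg _ (by positivity)
        have h7 : (0 : ℝ) < 1 + t := by linarith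
        have h8 : 1 - 1 / (1 + t) ≤ Real.log (1 + t) := by
          have := Real.one_sub_inv_le_log_of_pos h7
          rwa [one_div]
        have h9 : 0 < 1 / (1 + t) := by positivity
        set L := Real.log (1 + t)
        set w := 1 / (1 + t) with hw
        have h10 : 1 / (1 + t) ^ 2 = w * w := by
          rw [hw]
          field_simp
        rw [h10]
        have h11 : (w - w * w) * (1 + L) ^ 2 - (L + w) * (2 * (1 + L) * w) =
            (w * (1 + L)) * (1 - L - 3 * w - L * w) := by ring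
        rw [h11]
        apply mul_nonpos_of_nonneg_of_nonpos (by positivity)
        have : 0 ≤ L * w := by
          apply mul_nonneg _ h9.le
          linarith
        linarith
    intro s hs t ht hst
    rw [(om_hasDeriv (le_of_lt hs)).deriv, (om_hasDeriv (le_of_lt ht)).deriv]
    exact hanti hs ht hst

theorem om_div {t : ℝ} (ht : 0 < t) : om t / t = 1 / (1 + Real.log (1 + t)) := by
  have h1 := one_add_log_pos ht.le
  rw [om]
  field_simp

theorem om_liminf_zero :
    Filter.liminf (fun t : ℝ => ((om t / t : ℝ) : EReal)) (𝓝[>] 0) = 1 := by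
  apply Tendsto.liminf_eq
  have h : Tendsto (fun t : ℝ => 1 / (1 + Real.log (1 + t))) (𝓝[>] 0) (𝓝 1) := by
    have h2 : ContinuousAt (fun t : ℝ => 1 / (1 + Real.log (1 + t))) 0 := by
      apply ContinuousAt.div continuousAt_const
      · apply continuousAt_const.add
        apply ContinuousAt.log (by fun_prop)
        norm_num
      · simp
    have h3 := h2.tendsto
    simp only [add_zero, Real.log_one, div_one] at h3
    exact h3.mono_left nhdsWithin_le_nhds
  have h4 : Tendsto (fun t : ℝ => om t / t) (𝓝[>] 0) (𝓝 1) := by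
    refine h.congr' ?_
    filter_upwards [self_mem_nhdsWithin] with t ht
    exact (om_div ht).symm
  have := (EReal.tendsto_coe (a := (1 : ℝ))).mpr h4
  exact this

theorem om_liminf_top :
    Filter.liminf (fun t : ℝ => ((om t / t : ℝ) : EReal)) atTop = 0 := by
  apply Tendsto.liminf_eq
  have h : Tendsto (fun t : ℝ => 1 / (1 + Real.log (1 + t))) atTop (𝓝 0) := by
    have h2 : Tendsto (fun t : ℝ => 1 + Real.log (1 + t)) atTop atTop := by
      apply tendsto_atTop_add_const_left
      exact Real.tendsto_log_atTop.comp (tendsto_atTop_add_const_left _ _ tendsto_id)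
    simp only [one_div]
    exact h2.inv_tendsto_atTop
  have h4 : Tendsto (fun t : ℝ => om t / t) atTop (𝓝 0) := by
    refine h.congr' ?_
    filter_upwards [eventually_gt_atTop 0] with t ht
    exact (om_div ht).symm
  exact (EReal.tendsto_coe (a := (0 : ℝ))).mpr h4

/-! ### the region -/

theorem par_open : IsOpen Par := by
  unfold Par
  exact isOpen_lt (by fun_prop) (by fun_prop)

theorem par_convex : Convex ℝ Par := by
  intro x hx y hy a b ha hb hab
  have hx' : (x 0) ^ 2 < x 1 := hx
  have hy' : (y 0) ^ 2 < y 1 := hy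
  have h1 : (a • x + b • y) 0 = a * x 0 + b * y 0 := by simp
  have h2 : (a • x + b • y) 1 = a * x 1 + b * y 1 := by simp
  have h3 : ((a • x + b • y) 0) ^ 2 < (a • x + b • y) 1 := by
    rw [h1, h2]
    have h4 : b = 1 - a := by linarith
    subst h4
    have h5 : (a * x 0 + (1 - a) * y 0) ^ 2 =
        a * (x 0) ^ 2 + (1 - a) * (y 0) ^ 2 - a * (1 - a) * (x 0 - y 0) ^ 2 := by ring
    have h6 : 0 ≤ a * (1 - a) * (x 0 - y 0) ^ 2 := by positivity
    have h7 : a * (x 0) ^ 2 + (1 - a) * (y 0) ^ 2 < a * x 1 + (1 - a) * y 1 := by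
      rcases ha.eq_or_lt with h8 | h8
      · rw [← h8]
        simpa using hy'
      · nlinarith [mul_lt_mul_of_pos_left hx' h8, mul_le_mul_of_nonneg_left hy'.le hb]
    linarith
  exact h3

/-- basis vectors -/
noncomputable def b1 : E2 := EuclideanSpace.single 0 (1 : ℝ)
/-- basis vectors -/
noncomputable def b2 : E2 := EuclideanSpace.single 1 (1 : ℝ)

theorem b1_0 : b1 0 = 1 := by simp [b1]
theorem b1_1 : b1 1 = 0 := by simp [b1]
theorem b2_0 : b2 0 = 0 := by simp [b2]
theorem b2_1 : b2 1 = 1 := by simp [b2]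
theorem norm_b1 : ‖b1‖ = 1 := by simp [b1]
theorem norm_b2 : ‖b2‖ = 1 := by simp [b2]

theorem par_unbounded : ¬ Bornology.IsBounded Par := by
  intro h
  obtain ⟨R, hR⟩ := h.exists_norm_le
  have h1 : (|R| + 1) • b2 ∈ Par := by
    change (((|R| + 1) • b2) 0) ^ 2 < ((|R| + 1) • b2) 1
    have h2 : ((|R| + 1) • b2) 0 = 0 := by simp [b2_0]
    have h3 : ((|R| + 1) • b2) 1 = |R| + 1 := by simp [b2_1]
    rw [h2, h3]
    have := abs_nonneg R
    nlinarith
  have h4 := hR _ h1
  rw [norm_smul, norm_b2, mul_one, Real.norm_eq_abs] at h4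
  have h5 := le_abs_self (|R| + 1)
  have h6 := le_abs_self R
  linarith

theorem par_coneFree : ConeFree Par := by
  intro a C _ hC hint hall
  obtain ⟨c, hc⟩ := hint
  obtain ⟨c', hc', hne⟩ : ∃ c' ∈ C, c' 0 ≠ 0 := by
    by_cases h0 : c 0 = 0
    · have h1 : Tendsto (fun s : ℝ => c + s • b1) (𝓝[>] 0) (𝓝 c) := by
        have : Continuous fun s : ℝ => c + s • b1 := by fun_prop
        have h2 := this.tendsto 0
        simp only [zero_smul, add_zero] at h2
        exact h2.mono_left nhdsWithin_le_nhds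
      have h3 := h1.eventually_mem (isOpen_interior.mem_nhds hc)
      obtain ⟨s, hs, hs0⟩ := (h3.and self_mem_nhdsWithin).exists
      refine ⟨_, interior_subset hs, ?_⟩
      have : (c + s • b1) 0 = s := by simp [h0, b1_0]
      rw [this]
      exact ne_of_gt hs0
    · exact ⟨c, interior_subset hc, h0⟩
  set A := a 0
  set B := a 1
  set p := c' 0 with hp
  set q := c' 1
  have hall' : ∀ l : ℝ, 0 < l → (A + l * p) ^ 2 < B + l * q := by
    intro l hl
    have := hall _ (hC c' hc' l hl)
    have h1 : ((a + l • c') 0) ^ 2 < (a + l • c') 1 := this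
    simpa using h1
  have hp2 : 0 < p ^ 2 := by positivity
  set M := |2 * A * p - q| + |B - A ^ 2| + 1
  have hM : 0 < M := by positivity
  have h1 := hall' (M / p ^ 2 + 1) (by positivity)
  set l := M / p ^ 2 + 1
  have hl1 : 1 ≤ l := by
    have : 0 ≤ M / p ^ 2 := by positivity
    linarith
  have h2 : M ≤ l * p ^ 2 := by
    have : l * p ^ 2 = M + p ^ 2 := by
      simp only [l]
      field_simp
    linarith
  have h3 : -(2 * A * p - q) ≤ |2 * A * p - q| := neg_le_abs _
  have h4 : B - A ^ 2 ≤ |B - A ^ 2| := le_abs_self _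
  have h5 := mul_le_mul_of_nonneg_left h2 (show 0 ≤ l by linarith)
  have h6 : l * |2 * A * p - q| + |B - A ^ 2| ≤ l * M := by
    have h7 : |B - A ^ 2| ≤ l * |B - A ^ 2| := by
      have := abs_nonneg (B - A ^ 2)
      nlinarith
    simp only [M]
    nlinarith
  nlinarith [mul_le_mul_of_nonneg_left h3 (show 0 ≤ l by linarith)]

/-! ### the estimates -/

theorem step {G : Set E2} (hGo : IsOpen G) (hG : Convex ℝ G) {f : E2 → ℝ}
    (h1 : Semiconvex G om f) (h2 : Semiconcave G om f) {x y v : E2} (hx : x ∈ G) (hy : y ∈ G)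
    (hxv : x + v ∈ G) {t : ℝ} (ht : 0 ≤ t) (hxy : ‖x - y‖ ≤ t) (hv : ‖v‖ ≤ t) :
    |(fderiv ℝ f x - fderiv ℝ f y) v| ≤ 6 * t * om t := by
  obtain ⟨L, hL, hLT⟩ := exists_deriv hGo hG om_isModulus h1 h2 hx
  obtain ⟨M, hM, hMT⟩ := exists_deriv hGo hG om_isModulus h1 h2 hy
  rw [hL.fderiv, hM.fderiv, _root_.sub_apply]
  have h3 := hLT v hxv
  have h4 := hMT (x + v - y) (by simpa using hxv)
  have h5 := hMT (x - y) (by simpa using hx)
  have e1 : y + (x + v - y) = x + v := by abel
  have e2 : y + (x - y) = x := by abel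
  rw [e1] at h4
  rw [e2] at h5
  have n1 : ‖x + v - y‖ ≤ 2 * t := by
    have : x + v - y = (x - y) + v := by abel
    rw [this]
    exact (norm_add_le _ _).trans (by linarith)
  have b3 : ‖v‖ * om ‖v‖ ≤ t * om t :=
    mul_le_mul hv (om_mono (norm_nonneg _) hv) (om_nonneg (norm_nonneg _)) ht
  have b5 : ‖x - y‖ * om ‖x - y‖ ≤ t * om t :=
    mul_le_mul hxy (om_mono (norm_nonneg _) hxy) (om_nonneg (norm_nonneg _)) ht
  have b4 : ‖x + v - y‖ * om ‖x + v - y‖ ≤ (2 * t) * (2 * om t) :=
    mul_le_mul n1 ((om_mono (norm_nonneg _) n1).trans (om_two_mul ht))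
      (om_nonneg (norm_nonneg _)) (by linarith)
  have e3 : M (x + v - y) = M (x - y) + M v := by
    rw [← map_add]
    congr 1
    abel
  rw [e3] at h4
  rw [abs_le] at h3 h4 h5 ⊢
  constructor <;> nlinarith

theorem step_e2 {f : E2 → ℝ}
    (h1 : Semiconvex Par om f) (h2 : Semiconcave Par om f) {x y : E2} (hx : x ∈ Par)
    (hy : y ∈ Par) : |(fderiv ℝ f x - fderiv ℝ f y) b2| ≤ 6 * om ‖x - y‖ := by
  rcases (norm_nonneg (x - y)).eq_or_lt with h0 | h0
  · have : x = y := by
      rw [← sub_eq_zero, ← norm_eq_zero]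
      exact h0.symm
    rw [this]
    simp [om]
  · set t := ‖x - y‖ with ht
    have hxv : x + t • b2 ∈ Par := by
      change ((x + t • b2) 0) ^ 2 < (x + t • b2) 1
      have e1 : (x + t • b2) 0 = x 0 := by simp [b2_0]
      have e2 : (x + t • b2) 1 = x 1 + t := by simp [b2_1]
      have : (x 0) ^ 2 < x 1 := hx
      rw [e1, e2]
      linarith
    have hn : ‖t • b2‖ ≤ t := by
      rw [norm_smul, norm_b2, mul_one, Real.norm_eq_abs, abs_of_pos h0]
    have h3 := step par_open par_convex h1 h2 hx hy hxv h0.le le_rfl hn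
    rw [map_smul, smul_eq_mul, abs_mul, abs_of_pos h0] at h3
    have h4 : t * |(fderiv ℝ f x - fderiv ℝ f y) b2| ≤ t * (6 * om t) := by
      calc _ ≤ _ := h3
        _ = _ := by ring
    exact le_of_mul_le_mul_left h4 h0

theorem step_e1 {f : E2 → ℝ}
    (h1 : Semiconvex Par om f) (h2 : Semiconcave Par om f) {x y : E2} (hx : x ∈ Par)
    (hy : y ∈ Par) {t : ℝ} (ht : 0 ≤ t) (hxy : ‖x - y‖ ≤ t) (htx : t ^ 2 < x 1) :
    |(fderiv ℝ f x - fderiv ℝ f y) b1| ≤ 6 * om t := by
  rcases ht.eq_or_lt with h0 | h0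
  · have : x = y := by
      rw [← sub_eq_zero, ← norm_eq_zero]
      apply le_antisymm (by linarith) (norm_nonneg _)
    rw [this, ← h0]
    simp [om]
  · have hx' : (x 0) ^ 2 < x 1 := hx
    -- a signed step
    obtain ⟨r, hr, hxv⟩ : ∃ r : ℝ, |r| = t ∧ x + r • b1 ∈ Par := by
      rcases le_total 0 (x 0) with hp | hn
      · refine ⟨-t, by rw [abs_neg, abs_of_pos h0], ?_⟩
        change ((x + (-t) • b1) 0) ^ 2 < (x + (-t) • b1) 1
        have e1 : (x + (-t) • b1) 0 = x 0 - t := by simp [b1_0]; ring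
        have e2 : (x + (-t) • b1) 1 = x 1 := by simp [b1_1]
        rw [e1, e2]
        rcases le_total (x 0) t with h | h
        · nlinarith
        · nlinarith
      · refine ⟨t, abs_of_pos h0, ?_⟩
        change ((x + t • b1) 0) ^ 2 < (x + t • b1) 1
        have e1 : (x + t • b1) 0 = x 0 + t := by simp [b1_0]
        have e2 : (x + t • b1) 1 = x 1 := by simp [b1_1]
        rw [e1, e2]
        rcases le_total (-x 0) t with h | h
        · nlinarith
        · nlinarith
    have hn : ‖r • b1‖ ≤ t := by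
      rw [norm_smul, norm_b1, mul_one, Real.norm_eq_abs, hr]
    have h3 := step par_open par_convex h1 h2 hx hy hxv h0.le hxy hn
    rw [map_smul, smul_eq_mul, abs_mul, hr] at h3
    have h4 : t * |(fderiv ℝ f x - fderiv ℝ f y) b1| ≤ t * (6 * om t) := by
      calc _ ≤ _ := h3
        _ = _ := by ring
    exact le_of_mul_le_mul_left h4 h0

theorem par_up {x : E2} (hx : x ∈ Par) {s : ℝ} (hs : 0 ≤ s) : x + s • b2 ∈ Par := by
  change ((x + s • b2) 0) ^ 2 < (x + s • b2) 1
  have e1 : (x + s • b2) 0 = x 0 := by simp [b2_0]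
  have e2 : (x + s • b2) 1 = x 1 + s := by simp [b2_1]
  have : (x 0) ^ 2 < x 1 := hx
  rw [e1, e2]
  linarith

/-- chains of steps -/
theorem chain {f : E2 → ℝ} (h1 : Semiconvex Par om f) (h2 : Semiconcave Par om f) {x : E2}
    (hx : x ∈ Par) {h : ℝ} (hh : 0 ≤ h) (hhx : h ^ 2 < x 1) (N : ℕ) :
    |(fderiv ℝ f (x + (N * h) • b2) - fderiv ℝ f x) b1| ≤ N * (6 * om h) := by
  induction N with
  | zero => simp
  | succ N ih =>
    have e1 : x + ((N + 1 : ℕ) * h : ℝ) • b2 = (x + (N * h : ℝ) • b2) + h • b2 := by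
      push_cast
      module
    rw [e1]
    set y := x + (N * h : ℝ) • b2 with hy
    have hyP : y ∈ Par := par_up hx (by positivity)
    have hzP : y + h • b2 ∈ Par := par_up hyP hh
    have h3 := step_e1 h1 h2 (x := y + h • b2) (y := y) hzP hyP hh (by
      rw [add_sub_cancel_left, norm_smul, norm_b2, mul_one, Real.norm_eq_abs, abs_of_nonneg hh]) (by
      have e2 : (y + h • b2) 1 = x 1 + N * h + h := by
        rw [hy]
        simp [b2_1]
      rw [e2]
      have : 0 ≤ (N : ℝ) * h := by positivity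
      linarith)
    have e3 : (fderiv ℝ f (y + h • b2) - fderiv ℝ f x) b1 =
        (fderiv ℝ f (y + h • b2) - fderiv ℝ f y) b1 + (fderiv ℝ f y - fderiv ℝ f x) b1 := by
      simp only [_root_.sub_apply]
      ring
    rw [e3]
    push_cast
    calc _ ≤ _ := abs_add_le _ _
      _ ≤ 6 * om h + N * (6 * om h) := add_le_add h3 ih
      _ = _ := by ring

/-- the cost of the upper half -/
theorem cost {s : ℝ} (hs : 1 ≤ s) :
    ∃ N : ℕ, 0 < N ∧ (s / (2 * N)) ^ 2 ≤ s / 2 ∧ N * (6 * om (s / (2 * N))) ≤ 6 * om s := by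
  set r := Real.sqrt (s / 2) with hr
  have hr2 : r ^ 2 = s / 2 := Real.sq_sqrt (by linarith)
  have hr0 : 0 < r := Real.sqrt_pos.mpr (by linarith)
  set N := ⌈r⌉₊ with hN
  have hN0 : 0 < N := Nat.ceil_pos.mpr hr0
  have hN1 : r ≤ N := Nat.le_ceil r
  have hN2 : (N : ℝ) < r + 1 := Nat.ceil_lt_add_one hr0.le
  have hNr : (0 : ℝ) < N := by exact_mod_cast hN0
  have e1 : s / (2 * N) = r ^ 2 / N := by
    rw [hr2]
    field_simp
  refine ⟨N, hN0, ?_, ?_⟩
  · rw [e1, ← hr2]
    have h1 : r ^ 2 / N ≤ r := by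
      rw [div_le_iff₀ hNr]
      nlinarith
    have h2 : 0 ≤ r ^ 2 / N := by positivity
    nlinarith
  · rw [e1]
    set h := r ^ 2 / N with hh
    have hh0 : 0 < h := by positivity
    have h3 : N * (6 * om h) = 6 * (s / 2) * (1 / (1 + Real.log (1 + h))) := by
      rw [om, ← hr2]
      have : 1 + Real.log (1 + h) ≠ 0 := by
        have := one_add_log_pos hh0.le
        linarith
      have h4 : (N : ℝ) * h = r ^ 2 := by
        rw [hh]
        field_simp
      field_simp
      rw [← h4]
    have h5 : r ^ 2 / (r + 1) ≤ h := by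
      rw [hh]
      gcongr
    have h6 : r + 1 / (r + 1) ≤ 1 + h := by
      have : r + 1 / (r + 1) = 1 + r ^ 2 / (r + 1) := by
        field_simp
        ring
      linarith
    have h7 : 1 + s ≤ 2 * (1 + h) ^ 2 := by
      have h8 : s = 2 * r ^ 2 := by linarith
      have h9 : (r + 1 / (r + 1)) ^ 2 ≤ (1 + h) ^ 2 := by
        have : 0 ≤ r + 1 / (r + 1) := by positivity
        gcongr
      have h10 : 1 + 2 * r ^ 2 ≤ 2 * (r + 1 / (r + 1)) ^ 2 := by
        have h11 : 2 * (r + 1 / (r + 1)) ^ 2 - (1 + 2 * r ^ 2) =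
            (3 * r ^ 2 + 2 * r + 1) / (r + 1) ^ 2 := by
          field_simp
          ring
        have h12 : 0 ≤ (3 * r ^ 2 + 2 * r + 1) / (r + 1) ^ 2 := by positivity
        linarith
      rw [h8]
      linarith
    have h8 : Real.log (1 + s) ≤ Real.log 2 + 2 * Real.log (1 + h) := by
      calc Real.log (1 + s) ≤ Real.log (2 * (1 + h) ^ 2) := Real.log_le_log (by linarith) h7
        _ = _ := by
          rw [Real.log_mul (by norm_num) (by positivity), Real.log_pow]
          push_cast
          ring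
    have h9 := Real.log_two_lt_d9
    have h10 := one_add_log_pos hh0.le
    have h11 := one_add_log_pos (show 0 ≤ s by linarith)
    rw [h3, om]
    have h12 : 1 / (1 + Real.log (1 + h)) ≤ 2 / (1 + Real.log (1 + s)) := by
      rw [div_le_div_iff₀ (by linarith) (by linarith)]
      linarith
    calc 6 * (s / 2) * (1 / (1 + Real.log (1 + h))) ≤ 6 * (s / 2) * (2 / (1 + Real.log (1 + s))) := by
          gcongr
      _ = _ := by ring

theorem vertical {f : E2 → ℝ} (h1 : Semiconvex Par om f) (h2 : Semiconcave Par om f) (n : ℕ) :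
    ∀ x ∈ Par, ∀ s : ℝ, 0 ≤ s → s ≤ 2 ^ n →
      |(fderiv ℝ f (x + s • b2) - fderiv ℝ f x) b1| ≤ 40 * om s := by
  -- the direct case
  have hdir : ∀ x ∈ Par, ∀ s : ℝ, 0 ≤ s → s ^ 2 < x 1 + s →
      |(fderiv ℝ f (x + s • b2) - fderiv ℝ f x) b1| ≤ 40 * om s := by
    intro x hx s hs hsx
    have h3 := step_e1 h1 h2 (par_up hx hs) hx hs (by
      rw [add_sub_cancel_left, norm_smul, norm_b2, mul_one, Real.norm_eq_abs, abs_of_nonneg hs]) (by
      have e2 : (x + s • b2) 1 = x 1 + s := by simp [b2_1]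
      rw [e2]
      exact hsx)
    have := om_nonneg hs
    linarith
  have hpos : ∀ x ∈ Par, 0 < x 1 := by
    intro x hx
    have : (x 0) ^ 2 < x 1 := hx
    nlinarith [sq_nonneg (x 0)]
  induction n with
  | zero =>
    intro x hx s hs hs1
    apply hdir x hx s hs
    rw [pow_zero] at hs1
    have := hpos x hx
    nlinarith
  | succ n ih =>
    intro x hx s hs hs1
    by_cases hc : s ^ 2 < x 1 + s
    · exact hdir x hx s hs hc
    · push Not at hc
      have hx1 := hpos x hx
      have hs1' : 1 ≤ s := by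
        by_contra h
        push Not at h
        nlinarith
      have h3 := ih x hx (s / 2) (by linarith) (by
        rw [pow_succ] at hs1
        linarith)
      obtain ⟨N, hN0, hN1, hN2⟩ := cost hs1'
      have hNr : (0 : ℝ) < N := by exact_mod_cast hN0
      set y := x + (s / 2) • b2 with hy
      have hyP : y ∈ Par := par_up hx (by linarith)
      have e2 : y 1 = x 1 + s / 2 := by
        rw [hy]
        simp [b2_1]
      have h4 := chain h1 h2 hyP (h := s / (2 * N)) (by positivity) (by rw [e2]; linarith) N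
      have e3 : y + ((N : ℝ) * (s / (2 * N))) • b2 = x + s • b2 := by
        have : (N : ℝ) * (s / (2 * N)) = s / 2 := by field_simp
        rw [this, hy]
        module
      rw [e3] at h4
      have e4 : (fderiv ℝ f (x + s • b2) - fderiv ℝ f x) b1 =
          (fderiv ℝ f (x + s • b2) - fderiv ℝ f y) b1 + (fderiv ℝ f y - fderiv ℝ f x) b1 := by
        simp only [_root_.sub_apply]
        ring
      rw [e4]
      calc _ ≤ _ := abs_add_le _ _
        _ ≤ 6 * om s + 40 * om (s / 2) := add_le_add (h4.trans hN2) h3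
        _ ≤ 6 * om s + 40 * ((17 / 20) * om s) := by
          have := om_half hs
          linarith
        _ = _ := by ring

theorem abs_coord_le (x : E2) (i : Fin 2) : |x i| ≤ ‖x‖ := by
  have := PiLp.norm_apply_le x i
  rwa [Real.norm_eq_abs] at this

theorem eq_comb (v : E2) : v = v 0 • b1 + v 1 • b2 := by
  ext i
  fin_cases i <;> simp [b1_0, b1_1, b2_0, b2_1]

/-- horizontal segments -/
theorem horizontal {f : E2 → ℝ} (h1 : Semiconvex Par om f) (h2 : Semiconcave Par om f) {x y : E2}
    (hx : x ∈ Par) (hy : y ∈ Par) (hxy : x 1 = y 1) :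
    |(fderiv ℝ f x - fderiv ℝ f y) b1| ≤ 12 * om ‖x - y‖ := by
  set z := (1 / 2 : ℝ) • x + (1 / 2 : ℝ) • y with hz
  have hzP : z ∈ Par := par_convex hx hy (by norm_num) (by norm_num) (by norm_num)
  have hx' : (x 0) ^ 2 < x 1 := hx
  have hy' : (y 0) ^ 2 < y 1 := hy
  have e0 : x - y = (x 0 - y 0) • b1 := by
    rw [eq_comb (x - y)]
    have : (x - y) 1 = 0 := by simp [hxy]
    rw [this]
    simp
  have n0 : ‖x - y‖ = |x 0 - y 0| := by
    rw [e0, norm_smul, norm_b1, mul_one, Real.norm_eq_abs]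
  set t := ‖x - y‖ / 2 with ht
  have ht0 : 0 ≤ t := by positivity
  have n1 : ‖x - z‖ ≤ t := by
    have : x - z = (1 / 2 : ℝ) • (x - y) := by
      rw [hz]
      module
    rw [this, norm_smul, ht]
    norm_num
    linarith
  have n2 : ‖y - z‖ ≤ t := by
    have : y - z = (1 / 2 : ℝ) • (y - x) := by
      rw [hz]
      module
    rw [this, norm_smul, ht, norm_sub_rev y x]
    norm_num
    linarith
  have ht2 : t ^ 2 < x 1 := by
    rw [ht, n0]
    have : (|x 0 - y 0| / 2) ^ 2 = (x 0 - y 0) ^ 2 / 4 := by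
      rw [div_pow, sq_abs]
      norm_num
    rw [this]
    nlinarith [sq_nonneg (x 0 + y 0)]
  have a1 := step_e1 h1 h2 hx hzP ht0 n1 ht2
  have a2 := step_e1 h1 h2 hy hzP ht0 n2 (hxy ▸ ht2)
  have a3 : om t ≤ om ‖x - y‖ := om_mono ht0 (by rw [ht]; linarith [norm_nonneg (x - y)])
  have e4 : (fderiv ℝ f x - fderiv ℝ f y) b1 =
      (fderiv ℝ f x - fderiv ℝ f z) b1 - (fderiv ℝ f y - fderiv ℝ f z) b1 := by
    simp only [_root_.sub_apply]
    ring
  rw [e4]
  calc _ ≤ _ := abs_sub _ _
    _ ≤ 6 * om t + 6 * om t := add_le_add a1 a2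
    _ ≤ _ := by linarith

theorem dir_e1 {f : E2 → ℝ} (h1 : Semiconvex Par om f) (h2 : Semiconcave Par om f) {x y : E2}
    (hx : x ∈ Par) (hy : y ∈ Par) (hxy : x 1 ≤ y 1) :
    |(fderiv ℝ f x - fderiv ℝ f y) b1| ≤ 52 * om ‖x - y‖ := by
  set s := y 1 - x 1 with hs
  have hs0 : 0 ≤ s := by linarith
  set z := x + s • b2 with hz
  have hzP : z ∈ Par := par_up hx hs0
  obtain ⟨n, hn⟩ := pow_unbounded_of_one_lt s (one_lt_two)
  have h3 := vertical h1 h2 n x hx s hs0 hn.le
  have e1 : z 1 = y 1 := by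
    rw [hz]
    simp [b2_1, hs]
  have h4 := horizontal h1 h2 hzP hy e1
  have n1 : s ≤ ‖x - y‖ := by
    have := abs_coord_le (x - y) 1
    have h5 : (x - y) 1 = -s := by
      simp [hs]
    rw [h5, abs_neg, abs_of_nonneg hs0] at this
    exact this
  have n2 : ‖z - y‖ ≤ ‖x - y‖ := by
    have e0 : z - y = (x 0 - y 0) • b1 := by
      rw [eq_comb (z - y)]
      have h6 : (z - y) 1 = 0 := by simp [e1]
      have h7 : (z - y) 0 = x 0 - y 0 := by
        rw [hz]
        simp [b2_0]
      rw [h6, h7]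
      simp
    rw [e0, norm_smul, norm_b1, mul_one, Real.norm_eq_abs]
    have := abs_coord_le (x - y) 0
    simpa using this
  have m1 := om_mono hs0 n1
  have m2 := om_mono (norm_nonneg _) n2
  have e4 : (fderiv ℝ f x - fderiv ℝ f y) b1 =
      (fderiv ℝ f z - fderiv ℝ f y) b1 - (fderiv ℝ f z - fderiv ℝ f x) b1 := by
    simp only [_root_.sub_apply]
    ring
  rw [e4]
  calc _ ≤ _ := abs_sub _ _
    _ ≤ 12 * om ‖z - y‖ + 40 * om s := add_le_add h4 h3
    _ ≤ _ := by linarith

/-- every function on the region which is semiconvex and semiconcave with modulus `om` is of class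
`C^{1,om}` -/
theorem par_mem {f : E2 → ℝ} (h1 : Semiconvex Par om f) (h2 : Semiconcave Par om f) :
    MemC1 Par om f := by
  refine ⟨58, by norm_num, ?_, ?_⟩
  · intro x hx
    obtain ⟨L, hL, -⟩ := exists_deriv par_open par_convex om_isModulus h1 h2 hx
    exact hL.differentiableAt
  · intro x hx y hy
    have a1 : |(fderiv ℝ f x - fderiv ℝ f y) b1| ≤ 52 * om ‖x - y‖ := by
      rcases le_total (x 1) (y 1) with h | h
      · exact dir_e1 h1 h2 hx hy h
      · have := dir_e1 h1 h2 hy hx h
        rw [norm_sub_rev y x] at this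
        have e : (fderiv ℝ f x - fderiv ℝ f y) b1 = -((fderiv ℝ f y - fderiv ℝ f x) b1) := by
          simp only [_root_.sub_apply]
          ring
        rw [e, abs_neg]
        exact this
    have a2 := step_e2 h1 h2 hx hy
    have a0 := om_nonneg (norm_nonneg (x - y))
    apply ContinuousLinearMap.opNorm_le_bound _ (by positivity)
    intro v
    set D := fderiv ℝ f x - fderiv ℝ f y
    have e : D v = v 0 * D b1 + v 1 * D b2 := by
      conv_lhs => rw [eq_comb v]
      rw [map_add, map_smul, map_smul, smul_eq_mul, smul_eq_mul]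
    rw [Real.norm_eq_abs, e]
    have c0 := abs_coord_le v 0
    have c1 := abs_coord_le v 1
    calc |v 0 * D b1 + v 1 * D b2| ≤ |v 0 * D b1| + |v 1 * D b2| := abs_add_le _ _
      _ = |v 0| * |D b1| + |v 1| * |D b2| := by rw [abs_mul, abs_mul]
      _ ≤ ‖v‖ * (52 * om ‖x - y‖) + ‖v‖ * (6 * om ‖x - y‖) := by gcongr
      _ = _ := by ring

end Pool.Agent.V1173.Semi
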