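import Pool.Agent.V1173.Semi.Pos
import Pool.Agent.V1173.Semi.Par

/-!
# Cone-free convex sets, power moduli: the function

Helper file for `MP_d2274e_an`.
-/

open Set Metric Filter Topology
open scoped RealInnerProductSpace

namespace Pool.Agent.V1173.Semi

section
variable {E : Type*} [NormedAddCommGroup E] [InnerProductSpace ℝ E]

/-- the series -/
noncomputable def Psi (c R : ℕ → ℝ) (x : E) : ℝ := ∑' k, c k * Ph (R k) x

theorem ph_le_norm {R : ℝ} (hR : 0 < R) (x : E) : Ph R x ≤ ‖x‖ := by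
  have h := (ph_diff hR x 0).1
  rw [ph_zero, sub_zero, sub_zero] at h
  exact (le_abs_self _).trans h

theorem psi_hasSum {c R : ℕ → ℝ} (hR : ∀ k, 0 < R k) (hc0 : ∀ k, 0 ≤ c k)
    (hc : ∀ k, c k ≤ 1 / 2 / 2 ^ k) (x : E) : HasSum (fun k => c k * Ph (R k) x) (Psi c R x) := by
  apply Summable.hasSum
  apply Summable.of_nonneg_of_le (fun k => mul_nonneg (hc0 k) (ph_nonneg (hR k) x))
    (fun k => ?_) ((hasSum_geometric_two' (1 : ℝ)).summable.mul_right ‖x‖)
  have := ph_le_norm (hR k) x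
  have h1 := ph_nonneg (hR k) x
  have h2 := hc k
  have h3 := hc0 k
  gcongr

theorem psi_lip {c R : ℕ → ℝ} (hR : ∀ k, 0 < R k) (hc0 : ∀ k, 0 ≤ c k)
    (hc : ∀ k, c k ≤ 1 / 2 / 2 ^ k) (x y : E) : |Psi c R x - Psi c R y| ≤ ‖x - y‖ := by
  have h1 := (psi_hasSum hR hc0 hc x).sub (psi_hasSum hR hc0 hc y)
  have h2 := (hasSum_geometric_two' (1 : ℝ)).mul_right ‖x - y‖
  rw [one_mul] at h2
  refine h1.norm_le_of_bounded h2 fun k => ?_
  have h3 := (ph_diff (hR k) x y).1
  have h4 := hc0 k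
  have h5 := hc k
  rw [← mul_sub, Real.norm_eq_abs, abs_mul, abs_of_nonneg h4]
  gcongr

theorem psi_nonneg {c R : ℕ → ℝ} (hR : ∀ k, 0 < R k) (hc0 : ∀ k, 0 ≤ c k) (x : E) :
    0 ≤ Psi c R x := tsum_nonneg fun k => mul_nonneg (hc0 k) (ph_nonneg (hR k) x)

theorem psi_mono {c R : ℕ → ℝ} (hR : ∀ k, 0 < R k) (hc0 : ∀ k, 0 ≤ c k)
    (hc : ∀ k, c k ≤ 1 / 2 / 2 ^ k) {x y : E} (h : ‖x‖ ≤ ‖y‖) : Psi c R x ≤ Psi c R y :=
  hasSum_le (fun k => mul_le_mul_of_nonneg_left (ph_mono (hR k) h) (hc0 k))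
    (psi_hasSum hR hc0 hc x) (psi_hasSum hR hc0 hc y)

theorem psi_cont {c R : ℕ → ℝ} (hR : ∀ k, 0 < R k) (hc0 : ∀ k, 0 ≤ c k)
    (hc : ∀ k, c k ≤ 1 / 2 / 2 ^ k) : Continuous (Psi c R : E → ℝ) := by
  have : LipschitzWith 1 (Psi c R : E → ℝ) := by
    apply LipschitzWith.of_dist_le_mul
    intro x y
    rw [Real.dist_eq, dist_eq_norm, NNReal.coe_one, one_mul]
    exact psi_lip hR hc0 hc x y
  exact this.continuous

/-- the derivative in direction `ν` is large -/
theorem deriv_ge {c R : ℕ → ℝ} (hR : ∀ k, 0 < R k) (hc0 : ∀ k, 0 ≤ c k)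
    (hc : ∀ k, c k ≤ 1 / 2 / 2 ^ k) {ν : E} (hν : ‖ν‖ = 1) {y : E} {L : E →L[ℝ] ℝ}
    (hL : HasFDerivAt (fun x : E => ⟪x, ν⟫ * Psi c R x) L y) : Psi c R y ≤ L ν := by
  have hline := hL.hasLineDerivAt ν
  have hq : ∀ s : ℝ, s ≠ 0 → s⁻¹ • (⟪y + s • ν, ν⟫ * Psi c R (y + s • ν) - ⟪y, ν⟫ * Psi c R y) =
      Psi c R (y + s • ν) + ⟪y, ν⟫ * s⁻¹ * (Psi c R (y + s • ν) - Psi c R y) := by
    intro s hs
    rw [inner_add_left, real_inner_smul_left, real_inner_self_eq_norm_sq, hν, smul_eq_mul]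
    field_simp
    ring
  have hnorm : ∀ s : ℝ, 0 ≤ s * ⟪y, ν⟫ → ‖y‖ ≤ ‖y + s • ν‖ := by
    intro s hs
    have h1 := norm_add_sq_real y (s • ν)
    rw [real_inner_smul_right] at h1
    have h2 : ‖y‖ ^ 2 ≤ ‖y + s • ν‖ ^ 2 := by
      rw [h1]
      nlinarith [sq_nonneg ‖s • ν‖]
    exact le_of_sq_le_sq h2 (norm_nonneg _)
  have hge : ∀ s : ℝ, s ≠ 0 → 0 ≤ s * ⟪y, ν⟫ →
      Psi c R y ≤ s⁻¹ • (⟪y + s • ν, ν⟫ * Psi c R (y + s • ν) - ⟪y, ν⟫ * Psi c R y) := by
    intro s hs hs2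
    rw [hq s hs]
    have h1 := psi_mono hR hc0 hc (hnorm s hs2)
    have h2 : 0 ≤ ⟪y, ν⟫ * s⁻¹ := by
      have h3 : ⟪y, ν⟫ * s⁻¹ = (s * ⟪y, ν⟫) * (s⁻¹ * s⁻¹) := by
        field_simp
      rw [h3]
      exact mul_nonneg hs2 (mul_self_nonneg _)
    have h4 := mul_nonneg h2 (sub_nonneg.mpr h1)
    linarith
  rcases le_total 0 ⟪y, ν⟫ with hp | hn
  · refine ge_of_tendsto hline.tendsto_slope_zero_right ?_
    filter_upwards [self_mem_nhdsWithin] with s hs
    have hs' : 0 < s := hs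
    exact hge s hs'.ne' (mul_nonneg hs'.le hp)
  · refine ge_of_tendsto hline.tendsto_slope_zero_left ?_
    filter_upwards [self_mem_nhdsWithin] with s hs
    have hs' : s < 0 := hs
    exact hge s hs'.ne (mul_nonneg_of_nonpos_of_nonpos hs'.le hn)

theorem deriv_zero {c R : ℕ → ℝ} (hR : ∀ k, 0 < R k) (hc0 : ∀ k, 0 ≤ c k)
    (hc : ∀ k, c k ≤ 1 / 2 / 2 ^ k) {ν : E} (hν : ‖ν‖ = 1) {L : E →L[ℝ] ℝ}
    (hL : HasFDerivAt (fun x : E => ⟪x, ν⟫ * Psi c R x) L 0) : L ν = 0 := by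
  have hline := (hL.hasLineDerivAt ν).tendsto_slope_zero_right
  have h1 : Tendsto (fun s : ℝ => Psi c R (s • ν)) (𝓝[>] 0) (𝓝 (Psi c R (0 : E))) := by
    have h2 : Continuous fun s : ℝ => Psi c R (s • ν) :=
      (psi_cont hR hc0 hc).comp (by fun_prop)
    have h3 := h2.tendsto 0
    rw [zero_smul] at h3
    exact h3.mono_left nhdsWithin_le_nhds
  have h4 : Psi c R (0 : E) = 0 := by simp [Psi, ph_zero]
  rw [h4] at h1
  refine tendsto_nhds_unique hline (h1.congr' ?_)
  filter_upwards [self_mem_nhdsWithin] with s hs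
  have hs' : s ≠ 0 := ne_of_gt hs
  rw [zero_add, real_inner_smul_left, real_inner_self_eq_norm_sq, hν, inner_zero_left, smul_eq_mul]
  field_simp
  ring

/-- The main construction around the origin. -/
theorem exists_bad [FiniteDimensional ℝ E] {S : Set E} (hSo : IsOpen S) (hS : Convex ℝ S)
    (h0 : (0 : E) ∈ S) (hub : ¬ Bornology.IsBounded S) (hC : ConeFree S) {α : ℝ} (ha0 : 0 < α)
    (ha1 : α < 1) :
    ∃ g : E → ℝ, Semiconvex S (fun t => t ^ α) g ∧ Semiconcave S (fun t => t ^ α) g ∧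
      ¬ MemC1 S (fun t => t ^ α) g := by
  obtain ⟨ν, hν, hthin⟩ := exists_thin hSo hS h0 hC
  -- the parameters
  set ε : ℕ → ℝ := fun k => (2 * 4 ^ k : ℝ) ^ (-(1 - α)⁻¹) with hε
  have h1a : 0 < 1 - α := by linarith
  have hε0 : ∀ k, 0 < ε k := fun k => Real.rpow_pos_of_pos (by positivity) _
  have hεpow : ∀ k, ε k ^ (α - 1) = 2 * 4 ^ k := by
    intro k
    rw [hε]
    simp only
    rw [← Real.rpow_mul (by positivity)]
    have : -(1 - α)⁻¹ * (α - 1) = 1 := by
      field_simp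
      ring
    rw [this, Real.rpow_one]
  have hε2 : ∀ k, ε k ≤ 1 / 2 := by
    intro k
    rw [hε]
    simp only
    rw [Real.rpow_neg (by positivity)]
    have h1 : (2 : ℝ) ≤ (2 * 4 ^ k : ℝ) ^ (1 - α)⁻¹ := by
      have h2 : (1 : ℝ) ≤ (1 - α)⁻¹ := by
        rw [one_le_inv₀ h1a]
        linarith
      have h3 : (2 : ℝ) ≤ 2 * 4 ^ k := by
        have : (1 : ℝ) ≤ 4 ^ k := one_le_pow₀ (by norm_num)
        linarith
      calc (2 : ℝ) ≤ 2 * 4 ^ k := h3
        _ = (2 * 4 ^ k : ℝ) ^ (1 : ℝ) := (Real.rpow_one _).symm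
        _ ≤ _ := Real.rpow_le_rpow_of_exponent_le (by linarith) h2
    have h4 := inv_anti₀ (by norm_num : (0 : ℝ) < 2) h1
    rwa [one_div]
  choose R₀ hR₀ hR₀t using fun k => hthin (ε k) (hε0 k)
  set R : ℕ → ℝ := fun k => max (R₀ k) (ε k)⁻¹ with hRdef
  have hR : ∀ k, 0 < R k := fun k => lt_max_of_lt_left (hR₀ k)
  have hRt : ∀ k, ∀ x ∈ S, |⟪x, ν⟫| ≤ ε k * max (R k) ‖x‖ := by
    intro k x hx
    refine (hR₀t k x hx).trans ?_
    have := (hε0 k).le
    gcongr
    exact le_max_left _ _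
  have hp : ∀ k, 1 ≤ ε k * R k := by
    intro k
    calc (1 : ℝ) = ε k * (ε k)⁻¹ := (mul_inv_cancel₀ (hε0 k).ne').symm
      _ ≤ _ := by
        have := (hε0 k).le
        gcongr
        exact le_max_right _ _
  set c : ℕ → ℝ := fun k => (1 / 2 / 2 ^ k) * ((ε k * R k) ^ (α - 1) / 8) with hc
  have hm0 : ∀ k, 0 < (ε k * R k) ^ (α - 1) := fun k =>
    Real.rpow_pos_of_pos (by linarith [hp k]) _
  have hm1 : ∀ k, (ε k * R k) ^ (α - 1) ≤ 1 := fun k =>
    Real.rpow_le_one_of_one_le_of_nonpos (hp k) (by linarith)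
  have hc0 : ∀ k, 0 ≤ c k := by
    intro k
    have := (hm0 k).le
    simp only [hc]
    positivity
  have hc1 : ∀ k, c k ≤ 1 / 2 / 2 ^ k := by
    intro k
    simp only [hc]
    have h1 := hm1 k
    have h2 := hm0 k
    apply mul_le_of_le_one_right (by positivity)
    linarith
  set g : E → ℝ := fun x => ⟪x, ν⟫ * Psi c R x with hg
  have hgc : Continuous g := by
    have := psi_cont (E := E) hR hc0 hc1
    rw [hg]
    exact (continuous_id.inner continuous_const).mul this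
  -- the second difference
  have hsd : ∀ x ∈ S, ∀ y ∈ S, ∀ l ∈ Icc (0 : ℝ) 1,
      |l * g x + (1 - l) * g y - g (l • x + (1 - l) • y)| ≤
        l * (1 - l) * ‖x - y‖ * ‖x - y‖ ^ α := by
    intro x hx y hy l hl
    have hl1' : 0 ≤ 1 - l := by linarith [hl.2]
    have hl0 := hl.1
    have a1 := (psi_hasSum hR hc0 hc1 x).mul_left (l * ⟪x, ν⟫)
    have a2 := (psi_hasSum hR hc0 hc1 y).mul_left ((1 - l) * ⟪y, ν⟫)
    have a3 := (psi_hasSum hR hc0 hc1 (l • x + (1 - l) • y)).mul_left ⟪l • x + (1 - l) • y, ν⟫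
    have a4 := (a1.add a2).sub a3
    have b4 := hasSum_geometric_two' (l * (1 - l) * ‖x - y‖ * ‖x - y‖ ^ α)
    have e1 : l * g x + (1 - l) * g y - g (l • x + (1 - l) • y) =
        l * ⟪x, ν⟫ * Psi c R x + (1 - l) * ⟪y, ν⟫ * Psi c R y -
          ⟪l • x + (1 - l) • y, ν⟫ * Psi c R (l • x + (1 - l) • y) := by
      rw [hg]
      simp only
      ring
    rw [e1, ← Real.norm_eq_abs]
    refine a4.norm_le_of_bounded b4 fun k => ?_
    have h1 := block hS hν (hε0 k) (hε2 k) (hR k) (hRt k) hx hy hl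
    have h2 := min_le_rpow (norm_nonneg (x - y)) (show 0 < ε k * R k by linarith [hp k]) ha0 ha1
    set T := l * (⟪x, ν⟫ * Ph (R k) x) + (1 - l) * (⟪y, ν⟫ * Ph (R k) y) -
      ⟪l • x + (1 - l) • y, ν⟫ * Ph (R k) (l • x + (1 - l) • y) with hT
    have e2 : l * ⟪x, ν⟫ * (c k * Ph (R k) x) + (1 - l) * ⟪y, ν⟫ * (c k * Ph (R k) y) -
        ⟪l • x + (1 - l) • y, ν⟫ * (c k * Ph (R k) (l • x + (1 - l) • y)) = c k * T := by
      rw [hT]
      ring
    rw [e2, Real.norm_eq_abs, abs_mul, abs_of_nonneg (hc0 k)]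
    have h3 : |T| ≤ 8 * (l * (1 - l) * ‖x - y‖ * (‖x - y‖ ^ α * (ε k * R k) ^ (1 - α))) := by
      refine h1.trans ?_
      gcongr
    have h4 : (ε k * R k) ^ (α - 1) * (ε k * R k) ^ (1 - α) = 1 := by
      rw [← Real.rpow_add (by linarith [hp k])]
      simp
    calc c k * |T| ≤ c k * (8 * (l * (1 - l) * ‖x - y‖ *
          (‖x - y‖ ^ α * (ε k * R k) ^ (1 - α)))) := by
          have := hc0 k
          gcongr
      _ = (1 / 2 / 2 ^ k) * (l * (1 - l) * ‖x - y‖ * ‖x - y‖ ^ α) *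
          ((ε k * R k) ^ (α - 1) * (ε k * R k) ^ (1 - α)) := by
          simp only [hc]
          ring
      _ = _ := by
          rw [h4]
          ring
  refine ⟨g, ⟨hgc.continuousOn, ?_⟩, ⟨hgc.neg.continuousOn, ?_⟩, ?_⟩
  · intro x hx y hy l hl
    have := (abs_le.mp (hsd x hx y hy l hl)).1
    linarith
  · intro x hx y hy l hl
    have := (abs_le.mp (hsd x hx y hy l hl)).2
    simp only
    linarith
  · rintro ⟨K, hK, hd, hlip⟩
    -- points of given norm
    have hpt : ∀ r : ℝ, 0 < r → ∃ y ∈ S, ‖y‖ = r := by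
      intro r hr
      by_contra hcon
      push Not at hcon
      apply hub
      rw [isBounded_iff_forall_norm_le]
      refine ⟨r, fun x hx => ?_⟩
      by_contra h
      push Not at h
      have hx0 : 0 < ‖x‖ := hr.trans h
      have h1 : (r / ‖x‖) • x + (1 - r / ‖x‖) • (0 : E) ∈ S :=
        hS hx h0 (by positivity) (by
          have := (div_le_one hx0).mpr h.le
          linarith) (by ring)
      rw [smul_zero, add_zero] at h1
      refine hcon _ h1 ?_
      rw [norm_smul, Real.norm_eq_abs, abs_of_pos (by positivity)]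
      field_simp
    have key : ∀ k : ℕ, (2 : ℝ) ^ k ≤ 16 * K := by
      intro k
      obtain ⟨y, hy, hyr⟩ := hpt (R k) (hR k)
      have d1 := deriv_ge hR hc0 hc1 hν (hd y hy).hasFDerivAt
      have d0 := deriv_zero hR hc0 hc1 hν (hd 0 h0).hasFDerivAt
      have h1 := hlip y hy 0 h0
      rw [sub_zero, hyr] at h1
      have h2 : Psi c R y ≤ K * R k ^ α := by
        calc Psi c R y ≤ fderiv ℝ g y ν - fderiv ℝ g 0 ν := by
              rw [d0, sub_zero]
              exact d1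
          _ = (fderiv ℝ g y - fderiv ℝ g 0) ν := by rw [_root_.sub_apply]
          _ ≤ ‖fderiv ℝ g y - fderiv ℝ g 0‖ * ‖ν‖ :=
            (Real.le_norm_self _).trans (ContinuousLinearMap.le_opNorm _ _)
          _ ≤ _ := by
            rw [hν, mul_one]
            exact h1
      have h3 : c k * Ph (R k) y ≤ Psi c R y :=
        le_hasSum (psi_hasSum hR hc0 hc1 y) k fun j _ =>
          mul_nonneg (hc0 j) (ph_nonneg (hR j) y)
      have h4 : Ph (R k) y = R k / 2 := by
        unfold Ph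
        rw [hyr]
        have := (hR k).ne'
        field_simp
        ring
      have h5 : c k * Ph (R k) y = 2 ^ k / 16 * R k ^ α := by
        rw [h4]
        simp only [hc]
        rw [Real.mul_rpow (hε0 k).le (hR k).le, hεpow k]
        have h6 : R k ^ (α - 1) * R k = R k ^ α := by
          rw [Real.rpow_sub_one (hR k).ne']
          exact div_mul_cancel₀ _ (hR k).ne'
        have h7 : (4 : ℝ) ^ k = 2 ^ k * 2 ^ k := by
          rw [← mul_pow]
          norm_num
        rw [h7, ← h6]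
        have h8 : (2 : ℝ) ^ k ≠ 0 := by positivity
        field_simp
        ring
      have h9 : 2 ^ k / 16 * R k ^ α ≤ K * R k ^ α := by
        rw [← h5]
        exact h3.trans h2
      have h10 : 0 < R k ^ α := Real.rpow_pos_of_pos (hR k) _
      have h11 := le_of_mul_le_mul_right h9 h10
      linarith
    obtain ⟨k, hk⟩ := pow_unbounded_of_one_lt (16 * K) (one_lt_two)
    exact absurd (key k) (not_le.mpr hk)

/-- Cases (c) and (d): the answer is positive for every set. -/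
theorem positive [FiniteDimensional ℝ E] {G : Set E} (hGo : IsOpen G) (hG : Convex ℝ G)
    (hub : ¬ Bornology.IsBounded G) (hC : ConeFree G) {α : ℝ} (ha0 : 0 < α) (ha1 : α < 1) :
    ∃ f : E → ℝ, Semiconvex G (fun t => t ^ α) f ∧ Semiconcave G (fun t => t ^ α) f ∧
      ¬ MemC1 G (fun t => t ^ α) f := by
  obtain ⟨a, ha⟩ : G.Nonempty := by
    rw [Set.nonempty_iff_ne_empty]
    rintro rfl
    exact hub Bornology.isBounded_empty
  set S : Set E := {x | a + x ∈ G} with hS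
  have hSo : IsOpen S := hGo.preimage (by fun_prop : Continuous fun x : E => a + x)
  have hSc : Convex ℝ S := by
    intro x hx y hy s t hs ht hst
    have h1 := hG hx hy hs ht hst
    have h2 : s • (a + x) + t • (a + y) = a + (s • x + t • y) := by
      have h3 : s • a + t • a = a := by rw [← add_smul, hst, one_smul]
      calc s • (a + x) + t • (a + y) = (s • a + t • a) + (s • x + t • y) := by
            rw [smul_add, smul_add]
            abel
        _ = _ := by rw [h3]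
    rwa [h2] at h1
  have h0 : (0 : E) ∈ S := by
    change a + 0 ∈ G
    rwa [add_zero]
  have hSub : ¬ Bornology.IsBounded S := by
    intro h
    apply hub
    obtain ⟨r, hr⟩ := isBounded_iff_forall_norm_le.mp h
    rw [isBounded_iff_forall_norm_le]
    refine ⟨r + ‖a‖, fun x hx => ?_⟩
    have h1 : x - a ∈ S := by
      change a + (x - a) ∈ G
      rwa [add_sub_cancel]
    have h2 := hr _ h1
    calc ‖x‖ = ‖(x - a) + a‖ := by rw [sub_add_cancel]
      _ ≤ ‖x - a‖ + ‖a‖ := norm_add_le _ _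
      _ ≤ _ := by linarith
  have hSC : ConeFree S := by
    intro b C hCc hCc2 hCi hall
    refine hC (a + b) C hCc hCc2 hCi fun c hc => ?_
    have := hall c hc
    rw [add_assoc]
    exact this
  obtain ⟨g, hg1, hg2, hg3⟩ := exists_bad hSo hSc h0 hSub hSC ha0 ha1
  have hmem : ∀ x ∈ G, x - a ∈ S := by
    intro x hx
    change a + (x - a) ∈ G
    rwa [add_sub_cancel]
  have hcomb : ∀ x y : E, ∀ l : ℝ, l • x + (1 - l) • y - a = l • (x - a) + (1 - l) • (y - a) := by
    intro x y l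
    module
  refine ⟨fun x => g (x - a), ⟨?_, ?_⟩, ⟨?_, ?_⟩, ?_⟩
  · exact hg1.1.comp (by fun_prop) hmem
  · intro x hx y hy l hl
    have := hg1.2 _ (hmem x hx) _ (hmem y hy) l hl
    rw [sub_sub_sub_cancel_right] at this
    simp only
    rw [hcomb]
    exact this
  · exact hg2.1.comp (by fun_prop) hmem
  · intro x hx y hy l hl
    have := hg2.2 _ (hmem x hx) _ (hmem y hy) l hl
    rw [sub_sub_sub_cancel_right] at this
    simp only at this ⊢
    rw [hcomb]
    exact this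
  · rintro ⟨K, hK, hd, hlip⟩
    apply hg3
    refine ⟨K, hK, fun x hx => ?_, fun x hx y hy => ?_⟩
    · have h1 := hd (a + x) hx
      rw [differentiableAt_comp_sub, add_sub_cancel_left] at h1
      exact h1
    · have h1 := hlip (a + x) hx (a + y) hy
      rw [fderiv_comp_sub, fderiv_comp_sub, add_sub_cancel_left, add_sub_cancel_left,
        add_sub_add_left_eq_sub] at h1
      exact h1

end

end Pool.Agent.V1173.Semi
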