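import Pool.Agent.V1173.Semi.Defs

/-!
# Cone-free convex sets: power moduli

Helper file for `MP_d2274e_an`.
-/

open Set Metric Filter Topology
open scoped RealInnerProductSpace

namespace Pool.Agent.V1173.Semi

variable {E : Type*} [NormedAddCommGroup E] [InnerProductSpace ℝ E]

/-! ### geometry -/

/-- a cone-free open convex set around the origin is thin in some direction -/
theorem exists_thin [FiniteDimensional ℝ E] {S : Set E} (hSo : IsOpen S) (hS : Convex ℝ S)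
    (h0 : (0 : E) ∈ S) (hC : ConeFree S) :
    ∃ ν : E, ‖ν‖ = 1 ∧ ∀ ε > 0, ∃ R₀ > 0, ∀ x ∈ S, |⟪x, ν⟫| ≤ ε * max R₀ ‖x‖ := by
  set C : Set E := {c | ∀ t : ℝ, 0 ≤ t → t • c ∈ closure S} with hCdef
  have hCS : C ⊆ S := by
    intro c hc
    have h1 : (2 : ℝ) • c ∈ closure S := hc 2 (by norm_num)
    have h2 : (0 : E) ∈ interior S := by rwa [hSo.interior_eq]
    have h3 := hS.combo_closure_interior_mem_interior h1 h2 (a := 1 / 2) (b := 1 / 2)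
      (by norm_num) (by norm_num) (by norm_num)
    rw [hSo.interior_eq] at h3
    have h4 : (1 / 2 : ℝ) • (2 : ℝ) • c + (1 / 2 : ℝ) • (0 : E) = c := by
      module
    rwa [h4] at h3
  have hCc : Convex ℝ C := by
    intro x hx y hy a b ha hb hab t ht
    have h1 := hS.closure (hx t ht) (hy t ht) ha hb hab
    have h2 : t • (a • x + b • y) = a • t • x + b • t • y := by module
    rwa [h2]
  have hCcone : ∀ x ∈ C, ∀ l : ℝ, 0 < l → l • x ∈ C := by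
    intro x hx l hl t ht
    rw [smul_smul]
    exact hx _ (by positivity)
  have hint : ¬ (interior C).Nonempty := by
    intro h
    refine hC 0 C hCc hCcone h ?_
    intro c hc
    rw [zero_add]
    exact hCS hc
  have h0C : (0 : E) ∈ C := by
    intro t _
    rw [smul_zero]
    exact subset_closure h0
  -- a unit vector orthogonal to `C`
  obtain ⟨ν, hν1, hν⟩ : ∃ ν : E, ‖ν‖ = 1 ∧ ∀ c ∈ C, ⟪c, ν⟫ = (0 : ℝ) := by
    have h1 : Submodule.span ℝ C ≠ ⊤ := by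
      intro h
      apply hint
      rw [hCc.interior_nonempty_iff_affineSpan_eq_top]
      rw [AffineSubspace.affineSpan_eq_top_iff_vectorSpan_eq_top_of_nonempty ℝ E E ⟨0, h0C⟩]
      rw [eq_top_iff, ← h, vectorSpan_eq_span_vsub_set_right ℝ h0C]
      simp
    have h2 : (Submodule.span ℝ C)ᗮ ≠ ⊥ := by
      intro h
      exact h1 ((Submodule.orthogonal_eq_bot_iff).mp h)
    obtain ⟨w, hw, hw0⟩ := Submodule.exists_mem_ne_zero_of_ne_bot h2
    have hw' : 0 < ‖w‖ := norm_pos_iff.mpr hw0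
    refine ⟨‖w‖⁻¹ • w, ?_, ?_⟩
    · rw [norm_smul, norm_inv, norm_norm, inv_mul_cancel₀ hw'.ne']
    · intro c hc
      rw [inner_smul_right, (Submodule.mem_orthogonal _ _).mp hw c (Submodule.subset_span hc),
        mul_zero]
  refine ⟨ν, hν1, ?_⟩
  by_contra hcon
  push Not at hcon
  obtain ⟨ε, hε, hcon⟩ := hcon
  choose x hxS hx using fun k : ℕ => hcon (k + 1) (by positivity)
  have hbd : ∀ k, |⟪x k, ν⟫| ≤ ‖x k‖ := by
    intro k
    have := abs_real_inner_le_norm (x k) ν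
    rwa [hν1, mul_one] at this
  have hnorm : ∀ k : ℕ, ε * (k + 1) < ‖x k‖ := by
    intro k
    calc ε * (k + 1) ≤ ε * max (k + 1 : ℝ) ‖x k‖ := by
          gcongr
          exact le_max_left _ _
      _ < |⟪x k, ν⟫| := hx k
      _ ≤ ‖x k‖ := hbd k
  have hpos : ∀ k : ℕ, 0 < ‖x k‖ := fun k => lt_trans (by positivity) (hnorm k)
  have htop : Tendsto (fun k => ‖x k‖) atTop atTop := by
    apply tendsto_atTop_mono (fun k => (hnorm k).le)
    apply Tendsto.const_mul_atTop hε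
    exact tendsto_atTop_add_const_right _ _ tendsto_natCast_atTop_atTop
  set u : ℕ → E := fun k => ‖x k‖⁻¹ • x k with hu
  have hus : ∀ k, u k ∈ sphere (0 : E) 1 := by
    intro k
    rw [mem_sphere_zero_iff_norm, hu]
    simp only
    rw [norm_smul, norm_inv, norm_norm, inv_mul_cancel₀ (hpos k).ne']
  obtain ⟨u₀, -, φ, hφ, hlim⟩ := (isCompact_sphere (0 : E) 1).tendsto_subseq hus
  have huC : u₀ ∈ C := by
    intro t ht
    have h1 : Tendsto (fun k => t • u (φ k)) atTop (𝓝 (t • u₀)) := hlim.const_smul t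
    apply mem_closure_of_tendsto h1
    filter_upwards [(htop.comp hφ.tendsto_atTop).eventually_ge_atTop t] with k hk
    have hk' : t ≤ ‖x (φ k)‖ := hk
    have h2 : t • u (φ k) = (t / ‖x (φ k)‖) • x (φ k) + (1 - t / ‖x (φ k)‖) • (0 : E) := by
      rw [hu]
      simp only [smul_zero, add_zero, smul_smul]
      rfl
    rw [h2]
    have h3 : t / ‖x (φ k)‖ ≤ 1 := (div_le_one (hpos _)).mpr hk'
    exact hS (hxS _) h0 (div_nonneg ht (hpos _).le) (by linarith) (by ring)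
  have h3 : Tendsto (fun k => |⟪u (φ k), ν⟫|) atTop (𝓝 |⟪u₀, ν⟫|) :=
    ((hlim.inner tendsto_const_nhds)).abs
  have h4 : ε ≤ |⟪u₀, ν⟫| := by
    apply ge_of_tendsto' h3
    intro k
    have h5 : |⟪u (φ k), ν⟫| = |⟪x (φ k), ν⟫| / ‖x (φ k)‖ := by
      rw [hu]
      simp only
      rw [real_inner_smul_left, abs_mul, abs_inv, abs_norm]
      ring
    rw [h5, le_div_iff₀ (hpos _)]
    refine le_trans ?_ (hx (φ k)).le
    gcongr
    exact le_max_right _ _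
  rw [hν u₀ huC, abs_zero] at h4
  linarith

/-! ### the building block -/

/-- `Φ_R` -/
noncomputable def Ph (R : ℝ) (x : E) : ℝ := R * ‖x‖ ^ 2 / (R ^ 2 + ‖x‖ ^ 2)

theorem ph_zero (R : ℝ) : Ph R (0 : E) = 0 := by simp [Ph]

theorem ph_nonneg {R : ℝ} (hR : 0 < R) (x : E) : 0 ≤ Ph R x := by
  unfold Ph
  positivity

theorem ph_mono {R : ℝ} (hR : 0 < R) {x y : E} (h : ‖x‖ ≤ ‖y‖) : Ph R x ≤ Ph R y := by
  unfold Ph
  rw [div_le_div_iff₀ (by positivity) (by positivity)]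
  have h1 : ‖x‖ ^ 2 ≤ ‖y‖ ^ 2 := by gcongr
  have h2 : 0 ≤ R ^ 3 := by positivity
  nlinarith

theorem ph_sub {R : ℝ} (hR : 0 < R) (x y : E) :
    Ph R x - Ph R y = R ^ 3 * (‖x‖ + ‖y‖) * (‖x‖ - ‖y‖) /
      ((R ^ 2 + ‖x‖ ^ 2) * (R ^ 2 + ‖y‖ ^ 2)) := by
  unfold Ph
  have h1 : R ^ 2 + ‖x‖ ^ 2 ≠ 0 := by positivity
  have h2 : R ^ 2 + ‖y‖ ^ 2 ≠ 0 := by positivity
  rw [div_sub_div _ _ h1 h2]
  congr 1
  ring

/-- scalar inequality -/
theorem scal {R a b : ℝ} (hR : 0 < R) (ha : 0 ≤ a) (hb : 0 ≤ b) :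
    R ^ 3 * (a + b) / ((R ^ 2 + a ^ 2) * (R ^ 2 + b ^ 2)) ≤ 1 ∧
    R ^ 3 * (a + b) / ((R ^ 2 + a ^ 2) * (R ^ 2 + b ^ 2)) * a ≤ 2 * R := by
  constructor
  · rw [div_le_one (by positivity)]
    -- `R^3 a ≤ R^2 (R^2+a^2)/2`, and so on
    nlinarith [mul_nonneg (sq_nonneg R) (sq_nonneg (R - a)),
      mul_nonneg (sq_nonneg R) (sq_nonneg (R - b)), mul_nonneg (sq_nonneg a) (sq_nonneg b),
      mul_nonneg (sq_nonneg R) (sq_nonneg a), mul_nonneg (sq_nonneg R) (sq_nonneg b)]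
  · rw [div_mul_eq_mul_div, div_le_iff₀ (by positivity)]
    have h1 : R ^ 3 * (a + b) * a ≤ 2 * R * (R ^ 2 * a ^ 2 + R ^ 2 * b ^ 2 + R ^ 4 + a ^ 2 * b ^ 2) := by
      have h2 : (a + b) * a ≤ 2 * (a ^ 2 + b ^ 2) := by nlinarith [sq_nonneg (a - b)]
      have h3 : 0 < R ^ 3 := by positivity
      have h4 : R ^ 3 * ((a + b) * a) ≤ R ^ 3 * (2 * (a ^ 2 + b ^ 2)) :=
        mul_le_mul_of_nonneg_left h2 h3.le
      have h5 : 0 ≤ 2 * R * (R ^ 4 + a ^ 2 * b ^ 2) := by positivity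
      nlinarith
    calc _ ≤ _ := h1
      _ = _ := by ring

theorem ph_diff {R : ℝ} (hR : 0 < R) (x y : E) :
    |Ph R x - Ph R y| ≤ ‖x - y‖ ∧ |Ph R x - Ph R y| * ‖x‖ ≤ ‖x - y‖ * (2 * R) := by
  have h1 := scal hR (norm_nonneg x) (norm_nonneg y)
  have h2 : |Ph R x - Ph R y| = R ^ 3 * (‖x‖ + ‖y‖) / ((R ^ 2 + ‖x‖ ^ 2) * (R ^ 2 + ‖y‖ ^ 2)) *
      |‖x‖ - ‖y‖| := by
    rw [ph_sub hR, abs_div, abs_mul, abs_of_pos (by positivity :
      0 < (R ^ 2 + ‖x‖ ^ 2) * (R ^ 2 + ‖y‖ ^ 2)), abs_of_nonneg (by positivity :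
      0 ≤ R ^ 3 * (‖x‖ + ‖y‖))]
    ring
  have h3 : |‖x‖ - ‖y‖| ≤ ‖x - y‖ := abs_norm_sub_norm_le x y
  set Q := R ^ 3 * (‖x‖ + ‖y‖) / ((R ^ 2 + ‖x‖ ^ 2) * (R ^ 2 + ‖y‖ ^ 2)) with hQ
  have hQ0 : 0 ≤ Q := by positivity
  rw [h2]
  constructor
  · calc Q * |‖x‖ - ‖y‖| ≤ 1 * ‖x - y‖ := mul_le_mul h1.1 h3 (abs_nonneg _) zero_le_one
      _ = _ := one_mul _
  · calc Q * |‖x‖ - ‖y‖| * ‖x‖ = (Q * ‖x‖) * |‖x‖ - ‖y‖| := by ring
      _ ≤ (2 * R) * ‖x - y‖ := mul_le_mul h1.2 h3 (abs_nonneg _) (by positivity)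
      _ = _ := by ring


/-- the identity for convex combinations -/
theorem norm_comb (x y : E) (l : ℝ) :
    ‖l • x + (1 - l) • y‖ ^ 2 = l * ‖x‖ ^ 2 + (1 - l) * ‖y‖ ^ 2 - l * (1 - l) * ‖x - y‖ ^ 2 := by
  have h1 := norm_add_sq_real (l • x) ((1 - l) • y)
  have h2 := norm_sub_sq_real x y
  rw [h1, h2, norm_smul, norm_smul, mul_pow, mul_pow, Real.norm_eq_abs, Real.norm_eq_abs, sq_abs,
    sq_abs, real_inner_smul_left, real_inner_smul_right]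
  ring

theorem ph_sd1 {R : ℝ} (hR : 0 < R) (x y : E) {l : ℝ} (hl : l ∈ Icc (0 : ℝ) 1) :
    |l * Ph R x + (1 - l) * Ph R y - Ph R (l • x + (1 - l) • y)| *
      max R ‖l • x + (1 - l) • y‖ ≤ l * (1 - l) * ‖x - y‖ * (2 * ‖x - y‖) := by
  obtain ⟨hl0, hl1⟩ := hl
  have hl1' : 0 ≤ 1 - l := by linarith
  set z := l • x + (1 - l) • y with hz
  set t := ‖x - y‖ with ht
  have ht0 : 0 ≤ t := norm_nonneg _
  have hzx : ‖z - x‖ = (1 - l) * t := by
    have : z - x = (1 - l) • (y - x) := by rw [hz]; module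
    rw [this, norm_smul, Real.norm_eq_abs, abs_of_nonneg hl1', norm_sub_rev]
  have hzy : ‖z - y‖ = l * t := by
    have : z - y = l • (x - y) := by rw [hz]; module
    rw [this, norm_smul, Real.norm_eq_abs, abs_of_nonneg hl0]
  have hsq : ‖z‖ ^ 2 = l * ‖x‖ ^ 2 + (1 - l) * ‖y‖ ^ 2 - l * (1 - l) * t ^ 2 := norm_comb x y l
  set Dx := R ^ 2 + ‖x‖ ^ 2 with hDx
  set Dy := R ^ 2 + ‖y‖ ^ 2 with hDy
  set Dz := R ^ 2 + ‖z‖ ^ 2 with hDz
  have hDx0 : 0 < Dx := by positivity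
  have hDy0 : 0 < Dy := by positivity
  have hDz0 : 0 < Dz := by positivity
  have hPh : ∀ w : E, Ph R w = R - R ^ 3 / (R ^ 2 + ‖w‖ ^ 2) := by
    intro w
    unfold Ph
    have : R ^ 2 + ‖w‖ ^ 2 ≠ 0 := by positivity
    field_simp
    ring
  have hid : l * Ph R x + (1 - l) * Ph R y - Ph R z =
      -(R ^ 3 / Dz ^ 2) * (l * (Dz - Dx) ^ 2 / Dx + (1 - l) * (Dz - Dy) ^ 2 / Dy -
        l * (1 - l) * t ^ 2) := by
    rw [hPh, hPh, hPh, ← hDx, ← hDy, ← hDz]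
    have e : l * (1 - l) * t ^ 2 = l * Dx + (1 - l) * Dy - Dz := by
      rw [hDx, hDy, hDz, hsq]
      ring
    rw [e]
    field_simp
    ring
  have hq : ∀ w : E, ∀ c : ℝ, ‖z - w‖ = c * t → 0 ≤ c → c ≤ 1 →
      (Dz - (R ^ 2 + ‖w‖ ^ 2)) ^ 2 / (R ^ 2 + ‖w‖ ^ 2) ≤ c ^ 2 * (t ^ 2 * (2 * Dz / R ^ 2)) := by
    intro w c hc hc0 hc1
    have h1 : |‖z‖ - ‖w‖| ≤ c * t := hc ▸ abs_norm_sub_norm_le z w
    have h2 : (‖z‖ - ‖w‖) ^ 2 ≤ (c * t) ^ 2 := sq_le_sq' (by linarith [neg_abs_le (‖z‖ - ‖w‖)])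
      ((le_abs_self _).trans h1)
    have h3 : (Dz - (R ^ 2 + ‖w‖ ^ 2)) ^ 2 = (‖z‖ - ‖w‖) ^ 2 * (‖z‖ + ‖w‖) ^ 2 := by
      rw [hDz]
      ring
    have h4 : (‖z‖ + ‖w‖) ^ 2 ≤ (R ^ 2 + ‖w‖ ^ 2) * (2 * Dz / R ^ 2) := by
      have h5 : (R ^ 2 + ‖w‖ ^ 2) * (2 * Dz / R ^ 2) = (R ^ 2 + ‖w‖ ^ 2) * (2 * Dz) / R ^ 2 := by
        ring
      rw [h5, le_div_iff₀ (by positivity), hDz]
      nlinarith [sq_nonneg (‖z‖ - ‖w‖), mul_nonneg (sq_nonneg R) (sq_nonneg (‖z‖ - ‖w‖)),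
        mul_nonneg (sq_nonneg ‖z‖) (sq_nonneg ‖w‖), sq_nonneg (R ^ 2)]
    rw [h3, div_le_iff₀ (by positivity)]
    calc (‖z‖ - ‖w‖) ^ 2 * (‖z‖ + ‖w‖) ^ 2 ≤ (c * t) ^ 2 * ((R ^ 2 + ‖w‖ ^ 2) * (2 * Dz / R ^ 2)) := by
          gcongr
      _ = _ := by ring
  have hqx := hq x (1 - l) hzx hl1' (by linarith)
  have hqy := hq y l hzy hl0 hl1
  rw [← hDx] at hqx
  rw [← hDy] at hqy
  set B := l * (Dz - Dx) ^ 2 / Dx + (1 - l) * (Dz - Dy) ^ 2 / Dy - l * (1 - l) * t ^ 2 with hB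
  have hBabs : |B| ≤ l * (1 - l) * t ^ 2 * (2 * Dz / R ^ 2) := by
    have h1 : l * (Dz - Dx) ^ 2 / Dx ≤ l * ((1 - l) ^ 2 * (t ^ 2 * (2 * Dz / R ^ 2))) := by
      rw [mul_div_assoc]
      gcongr
    have h2 : (1 - l) * (Dz - Dy) ^ 2 / Dy ≤ (1 - l) * (l ^ 2 * (t ^ 2 * (2 * Dz / R ^ 2))) := by
      rw [mul_div_assoc]
      gcongr
    have h3 : 0 ≤ l * (Dz - Dx) ^ 2 / Dx := by positivity
    have h4 : 0 ≤ (1 - l) * (Dz - Dy) ^ 2 / Dy := by positivity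
    have h5 : 1 ≤ Dz / R ^ 2 := by
      rw [le_div_iff₀ (by positivity), hDz]
      nlinarith [sq_nonneg ‖z‖]
    have h6 : 0 ≤ l * (1 - l) * t ^ 2 := by positivity
    have h7 : l * (1 - l) * t ^ 2 ≤ l * (1 - l) * t ^ 2 * (Dz / R ^ 2) := le_mul_of_one_le_right h6 h5
    have h8 : 2 * Dz / R ^ 2 = 2 * (Dz / R ^ 2) := by ring
    have h9 : l * ((1 - l) ^ 2 * (t ^ 2 * (2 * Dz / R ^ 2))) +
        (1 - l) * (l ^ 2 * (t ^ 2 * (2 * Dz / R ^ 2))) = l * (1 - l) * t ^ 2 * (2 * Dz / R ^ 2) := by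
      ring
    rw [abs_le]
    constructor
    · rw [h8]
      linarith
    · linarith
  have hmax : R * max R ‖z‖ ≤ Dz := by
    rcases le_total R ‖z‖ with h | h
    · rw [max_eq_right h, hDz]
      nlinarith [norm_nonneg z]
    · rw [max_eq_left h, hDz]
      nlinarith [sq_nonneg ‖z‖]
  rw [hid, abs_mul, abs_neg, abs_of_pos (by positivity : 0 < R ^ 3 / Dz ^ 2)]
  have hM0 : 0 ≤ max R ‖z‖ := le_max_of_le_left hR.le
  calc R ^ 3 / Dz ^ 2 * |B| * max R ‖z‖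
      ≤ R ^ 3 / Dz ^ 2 * (l * (1 - l) * t ^ 2 * (2 * Dz / R ^ 2)) * max R ‖z‖ := by gcongr
    _ = (2 * (l * (1 - l) * t ^ 2)) * ((R * max R ‖z‖) / Dz) := by
      field_simp
    _ ≤ (2 * (l * (1 - l) * t ^ 2)) * 1 := by
      have h6 : 0 ≤ l * (1 - l) * t ^ 2 := by positivity
      have h10 : (R * max R ‖z‖) / Dz ≤ 1 := (div_le_one hDz0).mpr hmax
      gcongr
    _ = _ := by ring

theorem ph_sd2 {R : ℝ} (hR : 0 < R) (x y : E) {l : ℝ} (hl : l ∈ Icc (0 : ℝ) 1) :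
    |l * Ph R x + (1 - l) * Ph R y - Ph R (l • x + (1 - l) • y)| *
      max R ‖l • x + (1 - l) • y‖ ≤ l * (1 - l) * ‖x - y‖ * (4 * R) := by
  obtain ⟨hl0, hl1⟩ := hl
  have hl1' : 0 ≤ 1 - l := by linarith
  set z := l • x + (1 - l) • y with hz
  set t := ‖x - y‖ with ht
  have hzx : ‖z - x‖ = (1 - l) * t := by
    have : z - x = (1 - l) • (y - x) := by rw [hz]; module
    rw [this, norm_smul, Real.norm_eq_abs, abs_of_nonneg hl1', norm_sub_rev]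
  have hzy : ‖z - y‖ = l * t := by
    have : z - y = l • (x - y) := by rw [hz]; module
    rw [this, norm_smul, Real.norm_eq_abs, abs_of_nonneg hl0]
  have hone : ∀ w : E, ∀ c : ℝ, ‖z - w‖ = c → 0 ≤ c → |Ph R w - Ph R z| * max R ‖z‖ ≤ c * (2 * R) := by
    intro w c hc hc0
    have h1 := ph_diff hR z w
    rw [abs_sub_comm, hc] at h1
    rcases le_total R ‖z‖ with h | h
    · rw [max_eq_right h]
      exact h1.2
    · rw [max_eq_left h]
      calc |Ph R w - Ph R z| * R ≤ c * R := by gcongr; exact h1.1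
        _ ≤ _ := by nlinarith
  have hx := hone x _ hzx (by positivity)
  have hy := hone y _ hzy (by positivity)
  have hM0 : 0 ≤ max R ‖z‖ := le_max_of_le_left hR.le
  have e : l * Ph R x + (1 - l) * Ph R y - Ph R z =
      l * (Ph R x - Ph R z) + (1 - l) * (Ph R y - Ph R z) := by ring
  rw [e]
  calc |l * (Ph R x - Ph R z) + (1 - l) * (Ph R y - Ph R z)| * max R ‖z‖
      ≤ (|l * (Ph R x - Ph R z)| + |(1 - l) * (Ph R y - Ph R z)|) * max R ‖z‖ := by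
        gcongr
        exact abs_add_le _ _
    _ = l * (|Ph R x - Ph R z| * max R ‖z‖) + (1 - l) * (|Ph R y - Ph R z| * max R ‖z‖) := by
        rw [abs_mul, abs_mul, abs_of_nonneg hl0, abs_of_nonneg hl1']
        ring
    _ ≤ l * ((1 - l) * t * (2 * R)) + (1 - l) * (l * t * (2 * R)) := by gcongr
    _ = _ := by ring

/-- The second difference of `N Φ_R`. -/
theorem block {S : Set E} (hS : Convex ℝ S) {ν : E} (hν : ‖ν‖ = 1) {ε R : ℝ} (hε : 0 < ε)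
    (hε2 : ε ≤ 1 / 2) (hR : 0 < R) (hthin : ∀ x ∈ S, |⟪x, ν⟫| ≤ ε * max R ‖x‖) {x y : E}
    (hx : x ∈ S) (hy : y ∈ S) {l : ℝ} (hl : l ∈ Icc (0 : ℝ) 1) :
    |l * (⟪x, ν⟫ * Ph R x) + (1 - l) * (⟪y, ν⟫ * Ph R y) -
      ⟪l • x + (1 - l) • y, ν⟫ * Ph R (l • x + (1 - l) • y)| ≤
      8 * (l * (1 - l) * ‖x - y‖ * min ‖x - y‖ (ε * R)) := by
  have hl0 := hl.1
  have hl1' : 0 ≤ 1 - l := by linarith [hl.2]
  set z := l • x + (1 - l) • y with hz
  set t := ‖x - y‖ with ht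
  have ht0 : 0 ≤ t := norm_nonneg _
  have hzS : z ∈ S := hS hx hy hl0 hl1' (by ring)
  have s1 := ph_sd1 hR x y hl
  have s2 := ph_sd2 hR x y hl
  rw [← hz] at s1 s2
  set D := l * Ph R x + (1 - l) * Ph R y - Ph R z with hD
  have hM0 : 0 ≤ max R ‖z‖ := le_max_of_le_left hR.le
  have hN : ∀ w : E, |⟪w, ν⟫| ≤ ‖w‖ := by
    intro w
    have := abs_real_inner_le_norm w ν
    rwa [hν, mul_one] at this
  -- first term
  have t1 : |⟪z, ν⟫ * D| ≤ 4 * (l * (1 - l) * t * min t (ε * R)) := by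
    have h1 : |⟪z, ν⟫ * D| ≤ ε * (|D| * max R ‖z‖) := by
      rw [abs_mul]
      calc |⟪z, ν⟫| * |D| ≤ (ε * max R ‖z‖) * |D| := by
            have := hthin z hzS
            gcongr
        _ = _ := by ring
    rw [mul_min_of_nonneg _ _ (by positivity : 0 ≤ l * (1 - l) * t),
      mul_min_of_nonneg _ _ (by norm_num : (0 : ℝ) ≤ 4)]
    apply le_min
    · calc |⟪z, ν⟫ * D| ≤ ε * (|D| * max R ‖z‖) := h1
        _ ≤ ε * (l * (1 - l) * t * (2 * t)) := by gcongr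
        _ ≤ (1 / 2) * (l * (1 - l) * t * (2 * t)) := by gcongr
        _ ≤ _ := by
          have : 0 ≤ l * (1 - l) * t * t := by positivity
          linarith
    · calc |⟪z, ν⟫ * D| ≤ ε * (|D| * max R ‖z‖) := h1
        _ ≤ ε * (l * (1 - l) * t * (4 * R)) := by gcongr
        _ = _ := by ring
  -- second term
  have t2 : |l * (1 - l) * (⟪x - y, ν⟫ * (Ph R x - Ph R y))| ≤
      4 * (l * (1 - l) * t * min t (ε * R)) := by
    have h0 : |l * (1 - l) * (⟪x - y, ν⟫ * (Ph R x - Ph R y))| =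
        l * (1 - l) * (|⟪x - y, ν⟫| * |Ph R x - Ph R y|) := by
      rw [abs_mul (l * (1 - l)), abs_mul ⟪x - y, ν⟫, abs_of_nonneg (by positivity : 0 ≤ l * (1 - l))]
    have hd := ph_diff hR x y
    have hd' := ph_diff hR y x
    rw [abs_sub_comm, norm_sub_rev] at hd'
    rw [mul_min_of_nonneg _ _ (by positivity : 0 ≤ l * (1 - l) * t),
      mul_min_of_nonneg _ _ (by norm_num : (0 : ℝ) ≤ 4), h0]
    apply le_min
    · have h1 : |⟪x - y, ν⟫| * |Ph R x - Ph R y| ≤ t * t :=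
        mul_le_mul (hN _) hd.1 (abs_nonneg _) ht0
      calc l * (1 - l) * (|⟪x - y, ν⟫| * |Ph R x - Ph R y|) ≤ l * (1 - l) * (t * t) := by gcongr
        _ ≤ _ := by
          have : 0 ≤ l * (1 - l) * t * t := by positivity
          linarith
    · have h1 : |⟪x - y, ν⟫| ≤ ε * max R ‖x‖ + ε * max R ‖y‖ := by
        rw [inner_sub_left]
        exact (abs_sub _ _).trans (add_le_add (hthin x hx) (hthin y hy))
      have h2 : ∀ w : E, |Ph R x - Ph R y| * ‖w‖ ≤ t * (2 * R) →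
          |Ph R x - Ph R y| * max R ‖w‖ ≤ t * (2 * R) := by
        intro w hw
        rcases le_total R ‖w‖ with h | h
        · rwa [max_eq_right h]
        · rw [max_eq_left h]
          calc |Ph R x - Ph R y| * R ≤ t * R := by gcongr; exact hd.1
            _ ≤ _ := by nlinarith
      have h3 := h2 x hd.2
      have h4 := h2 y hd'.2
      calc l * (1 - l) * (|⟪x - y, ν⟫| * |Ph R x - Ph R y|)
          ≤ l * (1 - l) * ((ε * max R ‖x‖ + ε * max R ‖y‖) * |Ph R x - Ph R y|) := by gcongr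
        _ = l * (1 - l) * (ε * (|Ph R x - Ph R y| * max R ‖x‖) +
            ε * (|Ph R x - Ph R y| * max R ‖y‖)) := by ring
        _ ≤ l * (1 - l) * (ε * (t * (2 * R)) + ε * (t * (2 * R))) := by gcongr
        _ = _ := by ring
  have hzi : ⟪z, ν⟫ = l * ⟪x, ν⟫ + (1 - l) * ⟪y, ν⟫ := by
    rw [hz, inner_add_left, real_inner_smul_left, real_inner_smul_left]
  have key : l * (⟪x, ν⟫ * Ph R x) + (1 - l) * (⟪y, ν⟫ * Ph R y) - ⟪z, ν⟫ * Ph R z =
      ⟪z, ν⟫ * D + l * (1 - l) * (⟪x - y, ν⟫ * (Ph R x - Ph R y)) := by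
    rw [hD, hzi, inner_sub_left]
    ring
  rw [key]
  calc _ ≤ _ := abs_add_le _ _
    _ ≤ 4 * (l * (1 - l) * t * min t (ε * R)) + 4 * (l * (1 - l) * t * min t (ε * R)) :=
      add_le_add t1 t2
    _ = _ := by ring

/-- interpolation -/
theorem min_le_rpow {t p α : ℝ} (ht : 0 ≤ t) (hp : 0 < p) (h0 : 0 < α) (h1 : α < 1) :
    min t p ≤ t ^ α * p ^ (1 - α) := by
  have hq : 0 ≤ min t p := le_min ht hp.le
  have h2 : min t p = min t p ^ α * min t p ^ (1 - α) := by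
    rw [← Real.rpow_add' hq (by norm_num)]
    simp
  rw [h2]
  have h3 := Real.rpow_le_rpow hq (min_le_left t p) h0.le
  have h4 := Real.rpow_le_rpow hq (min_le_right t p) (show 0 ≤ 1 - α by linarith)
  exact mul_le_mul h3 h4 (Real.rpow_nonneg hq _) (Real.rpow_nonneg ht _)

end Pool.Agent.V1173.Semi
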